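import Pool.Agent.LR.B6.Sign
import Pool.Agent.LR.B1.Gau

/-!
# LR-B6 module Adm: functions of at most exponential growth
-/

set_option autoImplicit false
set_option linter.unusedSectionVars false

noncomputable section

open scoped BigOperators

namespace Pool.Agent.LR



variable {W : Type*} [DecidableEq W]

/-- The full form. -/
abbrev MM (J : W → W → ℝ) (N : BF W) (S : Finset W) : BF W := Qfr J S + N

/-- Standing assumptions. -/
structure Mod (J : W → W → ℝ) (N : BF W) (S : Finset W) : Prop where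
  Js : ∀ x y, J x y = J y x
  J0 : ∀ x y, 0 ≤ J x y
  Nf : IsForm N
  pd : PDef (Qfr J S + N) S

variable {J : W → W → ℝ} {N : BF W} {S R T A : Finset W} {f g h l φ : W → ℝ}

theorem Qfr_apply' (J : W → W → ℝ) (S : Finset W) (φ χ : W → ℝ) :
    Qfr J S φ χ = ∑ x ∈ S, ∑ y ∈ S, J x y / 2 * (φ x - φ y) * (χ x - χ y) := by
  unfold Qfr
  rw [LinearMap.sum_apply, LinearMap.sum_apply]
  apply Finset.sum_congr rfl
  intro x _
  rw [LinearMap.sum_apply, LinearMap.sum_apply]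
  apply Finset.sum_congr rfl
  intro y _
  rw [rk_apply]
  simp [ev]

theorem isForm_Qfr' (J0 : ∀ x y, 0 ≤ J x y) (S : Finset W) : IsForm (Qfr J S) := by
  unfold Qfr
  apply IsForm.sum
  intro x _
  apply IsForm.sum
  intro y _
  exact isForm_rk (by have := J0 x y; linarith) _

theorem Mod.form (hM : Mod J N S) : IsForm (MM J N S) := (isForm_Qfr' hM.J0 S).add hM.Nf

theorem Mod.pdO (hM : Mod J N S) (A : Finset W) : PDef (MM J N S) (S \ A) :=
  PDef.mono Finset.sdiff_subset hM.pd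

theorem one_le_expsum (S : Finset W) (φ : W → ℝ) {a : ℝ} (ha : 0 ≤ a) :
    1 ≤ Real.exp (a * ∑ x ∈ S, |φ x|) := by
  rw [← Real.exp_zero, Real.exp_le_exp]
  exact mul_nonneg ha (Finset.sum_nonneg (fun x _ => abs_nonneg _))

theorem Adm.of_bdd {F : (W → ℝ) → ℝ} {C : ℝ} (h : ∀ φ, |F φ| ≤ C) : Adm S F := by
  refine ⟨|C|, 0, abs_nonneg _, le_rfl, ?_⟩
  intro φ _
  rw [zero_mul, Real.exp_zero, mul_one]
  exact (h φ).trans (le_abs_self C)

theorem Adm.const (a : ℝ) : Adm S (fun _ => a) := Adm.of_bdd (C := |a|) (fun _ => le_rfl)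

theorem Adm.of_le {F G : (W → ℝ) → ℝ} (hG : Adm S G) (h : ∀ φ, Supp S φ → |F φ| ≤ |G φ|) :
    Adm S F := by
  obtain ⟨C, a, hC, ha, hb⟩ := hG
  exact ⟨C, a, hC, ha, fun φ hφ => (h φ hφ).trans (hb φ hφ)⟩

theorem Adm.add {F G : (W → ℝ) → ℝ} (hF : Adm S F) (hG : Adm S G) :
    Adm S (fun φ => F φ + G φ) := by
  obtain ⟨C, a, hC, ha, hb⟩ := hF
  obtain ⟨C', a', hC', ha', hb'⟩ := hG
  refine ⟨C + C', a + a', by linarith, by linarith, ?_⟩
  intro φ hφ
  have hs : 0 ≤ ∑ x ∈ S, |φ x| := Finset.sum_nonneg (fun x _ => abs_nonneg _)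
  have h1 : Real.exp (a * ∑ x ∈ S, |φ x|) ≤ Real.exp ((a + a') * ∑ x ∈ S, |φ x|) := by
    rw [Real.exp_le_exp]
    have := mul_nonneg ha' hs
    linarith
  have h2 : Real.exp (a' * ∑ x ∈ S, |φ x|) ≤ Real.exp ((a + a') * ∑ x ∈ S, |φ x|) := by
    rw [Real.exp_le_exp]
    have := mul_nonneg ha hs
    linarith
  calc |F φ + G φ| ≤ |F φ| + |G φ| := abs_add_le _ _
    _ ≤ C * Real.exp (a * ∑ x ∈ S, |φ x|) + C' * Real.exp (a' * ∑ x ∈ S, |φ x|) :=
        add_le_add (hb φ hφ) (hb' φ hφ)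
    _ ≤ C * Real.exp ((a + a') * ∑ x ∈ S, |φ x|) + C' * Real.exp ((a + a') * ∑ x ∈ S, |φ x|) :=
        add_le_add (mul_le_mul_of_nonneg_left h1 hC) (mul_le_mul_of_nonneg_left h2 hC')
    _ = (C + C') * Real.exp ((a + a') * ∑ x ∈ S, |φ x|) := by ring

theorem Adm.mul {F G : (W → ℝ) → ℝ} (hF : Adm S F) (hG : Adm S G) :
    Adm S (fun φ => F φ * G φ) := by
  obtain ⟨C, a, hC, ha, hb⟩ := hF
  obtain ⟨C', a', hC', ha', hb'⟩ := hG
  refine ⟨C * C', a + a', mul_nonneg hC hC', by linarith, ?_⟩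
  intro φ hφ
  calc |F φ * G φ| = |F φ| * |G φ| := abs_mul _ _
    _ ≤ (C * Real.exp (a * ∑ x ∈ S, |φ x|)) * (C' * Real.exp (a' * ∑ x ∈ S, |φ x|)) :=
        mul_le_mul (hb φ hφ) (hb' φ hφ) (abs_nonneg _)
          (mul_nonneg hC (Real.exp_pos _).le)
    _ = C * C' * Real.exp ((a + a') * ∑ x ∈ S, |φ x|) := by
        rw [add_mul, Real.exp_add]
        ring

theorem Adm.neg {F : (W → ℝ) → ℝ} (hF : Adm S F) : Adm S (fun φ => -F φ) :=
  hF.of_le (fun φ _ => by rw [abs_neg])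

theorem Adm.sub {F G : (W → ℝ) → ℝ} (hF : Adm S F) (hG : Adm S G) :
    Adm S (fun φ => F φ - G φ) := by
  have := hF.add hG.neg
  exact this.of_le (fun φ _ => by rw [sub_eq_add_neg])

theorem Adm.abs {F : (W → ℝ) → ℝ} (hF : Adm S F) : Adm S (fun φ => |F φ|) :=
  hF.of_le (fun φ _ => by rw [abs_abs])

theorem Adm.smul {F : (W → ℝ) → ℝ} (hF : Adm S F) (a : ℝ) : Adm S (fun φ => a * F φ) :=
  (Adm.const a).mul hF

theorem Adm.sum {τ : Type*} (I : Finset τ) {F : τ → (W → ℝ) → ℝ} (h : ∀ i ∈ I, Adm S (F i)) :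
    Adm S (fun φ => ∑ i ∈ I, F i φ) := by
  classical
  induction I using Finset.induction_on with
  | empty => simpa using Adm.const (S := S) 0
  | insert i I hi ih =>
    have h1 := (h i (Finset.mem_insert_self i I)).add
      (ih (fun j hj => h j (Finset.mem_insert_of_mem hj)))
    exact h1.of_le (fun φ _ => by rw [Finset.sum_insert hi])

theorem Adm.sqrt_abs {F : (W → ℝ) → ℝ} (hF : Adm S F) : Adm S (fun φ => Real.sqrt |F φ|) := by
  have h1 : Adm S (fun φ => 1 + |F φ|) := (Adm.const 1).add hF.abs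
  refine h1.of_le (fun φ _ => ?_)
  have h0 : (0 : ℝ) ≤ |F φ| := abs_nonneg _
  have h3 : (0 : ℝ) ≤ 1 + |F φ| := by linarith
  rw [abs_of_nonneg (Real.sqrt_nonneg |F φ|), abs_of_nonneg h3]
  have h2 : Real.sqrt |F φ| ^ 2 = |F φ| := Real.sq_sqrt h0
  nlinarith [sq_nonneg (Real.sqrt |F φ| - 1), Real.sqrt_nonneg |F φ|]

theorem Adm.sqrt {F : (W → ℝ) → ℝ} (hF : Adm S F) : Adm S (fun φ => Real.sqrt (F φ)) :=
  hF.sqrt_abs.of_le (fun φ _ => by
    rw [abs_of_nonneg (Real.sqrt_nonneg _), abs_of_nonneg (Real.sqrt_nonneg _)]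
    exact Real.sqrt_le_sqrt (le_abs_self _))

theorem Adm.apply (x : W) : Adm S (fun φ => φ x) := by
  by_cases hx : x ∈ S
  · refine ⟨1, 1, by norm_num, by norm_num, ?_⟩
    intro φ _
    rw [one_mul, one_mul]
    have h1 : |φ x| ≤ ∑ y ∈ S, |φ y| :=
      Finset.single_le_sum (f := fun y => |φ y|) (fun y _ => abs_nonneg _) hx
    have h2 := Real.add_one_le_exp (∑ y ∈ S, |φ y|)
    linarith
  · refine ⟨1, 0, by norm_num, by norm_num, ?_⟩
    intro φ hφ
    simp [hφ x hx]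

theorem Adm.prA (A : Finset W) (l : W → ℝ) : Adm S (fun φ => pr A l φ) := by
  unfold pr
  exact Adm.sum A (fun x _ => (Adm.apply x).smul (l x))

theorem Adm.exp_prA (A : Finset W) (l : W → ℝ) : Adm S (fun φ => Real.exp (pr A l φ)) := by
  refine ⟨1, ∑ x ∈ A, |l x|, by norm_num, Finset.sum_nonneg (fun x _ => abs_nonneg _), ?_⟩
  intro φ hφ
  rw [one_mul, Real.abs_exp, Real.exp_le_exp]
  unfold pr
  rw [Finset.sum_mul]
  apply Finset.sum_le_sum
  intro x _
  have h1 : l x * φ x ≤ |l x| * |φ x| := by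
    rw [← abs_mul]
    exact le_abs_self _
  have h2 : |φ x| ≤ ∑ y ∈ S, |φ y| := by
    by_cases hx : x ∈ S
    · exact Finset.single_le_sum (f := fun y => |φ y|) (fun y _ => abs_nonneg _) hx
    · rw [hφ x hx, abs_zero]
      exact Finset.sum_nonneg (fun x _ => abs_nonneg _)
  exact h1.trans (mul_le_mul_of_nonneg_left h2 (abs_nonneg _))

theorem restr_eq_sum (A : Finset W) (φ : W → ℝ) :
    restr A φ = ∑ x ∈ A, φ x • (Pi.single x (1 : ℝ) : W → ℝ) := by
  funext y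
  rw [Finset.sum_apply]
  unfold restr
  simp only [Pi.smul_apply, smul_eq_mul, Pi.single_apply, mul_ite, mul_one, mul_zero]
  rw [Finset.sum_ite_eq]

theorem eq_sum_of_supp {O : Finset W} (hφ : Supp O φ) :
    φ = ∑ x ∈ O, φ x • (Pi.single x (1 : ℝ) : W → ℝ) := by
  rw [← restr_eq_sum]
  funext y
  unfold restr
  split_ifs with h
  · rfl
  · exact hφ y h

/-- a bilinear form at a restricted field -/
theorem Adm.form (B : BF W) (A : Finset W) (u : W → ℝ) :
    Adm S (fun φ => B (restr A φ) u) := by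
  have h1 : Adm S (fun φ => ∑ x ∈ A, B (Pi.single x 1) u * φ x) :=
    Adm.sum A (fun x _ => (Adm.apply x).smul _)
  refine h1.of_le (fun φ _ => le_of_eq ?_)
  rw [restr_eq_sum, map_sum, LinearMap.sum_apply]
  congr 1
  apply Finset.sum_congr rfl
  intro x _
  rw [map_smul, LinearMap.smul_apply, smul_eq_mul, mul_comm]

theorem Adm.fb (N : BF W) (A : Finset W) (y : W) : Adm S (fun φ => fb N (restr A φ) y) := by
  unfold LR.fb
  exact (Adm.form N A (Pi.single y 1)).neg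

theorem sqrt_nsq_le_sum {M : BF W} {O : Finset W} (hF : IsForm M) (hP : PDef M O) (l : W → ℝ) :
    Real.sqrt (nsq M O l) ≤
      ∑ y ∈ O, |l y| * Real.sqrt (nsq M O (Pi.single y (1 : ℝ) : W → ℝ)) := by
  have h1 : ∀ t : Finset W, Real.sqrt (nsq M O (∑ y ∈ t, l y • (Pi.single y (1 : ℝ) : W → ℝ))) ≤
      ∑ y ∈ t, |l y| * Real.sqrt (nsq M O (Pi.single y (1 : ℝ) : W → ℝ)) := by
    intro t
    induction t using Finset.induction_on with
    | empty =>
      have h0 : nsq M O (0 : W → ℝ) = 0 := by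
        have := nsq_smul hF hP 0 (0 : W → ℝ)
        simpa using this
      simp [h0]
    | insert y t hy ih =>
      rw [Finset.sum_insert hy, Finset.sum_insert hy]
      refine (nsq_add_le hF hP _ _).trans (add_le_add (le_of_eq ?_) ih)
      rw [nsq_smul hF hP, Real.sqrt_mul (sq_nonneg _), Real.sqrt_sq_eq_abs]
  have h2 : nsq M O l = nsq M O (∑ y ∈ O, l y • (Pi.single y (1 : ℝ) : W → ℝ)) := by
    have h3 : ∀ φ, pr O l φ = pr O (∑ y ∈ O, l y • (Pi.single y (1 : ℝ) : W → ℝ)) φ := by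
      intro φ
      rw [← restr_eq_sum]
      unfold pr
      apply Finset.sum_congr rfl
      intro x hx
      unfold restr
      rw [if_pos hx]
    unfold nsq
    simp only [h3]
  rw [h2]
  exact h1 O

theorem Adm.sqrt_nsq {M : BF W} {O : Finset W} (hF : IsForm M) (hP : PDef M O)
    {l : (W → ℝ) → W → ℝ} (hl : ∀ y, Adm S (fun φ => l φ y)) :
    Adm S (fun φ => Real.sqrt (nsq M O (l φ))) := by
  have h1 : Adm S (fun φ => ∑ y ∈ O, |l φ y| * Real.sqrt (nsq M O (Pi.single y (1 : ℝ) : W → ℝ))) :=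
    Adm.sum O (fun y _ => (hl y).abs.mul (Adm.const _))
  refine h1.of_le (fun φ _ => ?_)
  rw [abs_of_nonneg (Real.sqrt_nonneg _)]
  exact (sqrt_nsq_le_sum hF hP (l φ)).trans (le_abs_self _)

theorem Adm.nsqA (hM : Mod J N S) (A : Finset W) (g : W → ℝ) :
    Adm S (fun φ => nsq (MM J N S) (S \ A) (g + LR.fb N (restr A φ))) := by
  have h1 : Adm S (fun φ => Real.sqrt (nsq (MM J N S) (S \ A) (g + LR.fb N (restr A φ)))) :=
    Adm.sqrt_nsq hM.form (hM.pdO A) (fun y => (Adm.const (g y)).add (Adm.fb N A y))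
  refine (h1.mul h1).of_le (fun φ _ => ?_)
  rw [Real.mul_self_sqrt (nsq_nonneg hM.form (hM.pdO A) _)]

theorem sum_abs_emb {O : Finset W} (ψ : O → ℤ) : ∑ x ∈ O, |emb O ψ x| = ∑ x : O, |(ψ x : ℝ)| := by
  rw [← Finset.sum_coe_sort O (fun x => |emb O ψ x|)]
  apply Finset.sum_congr rfl
  intro x _
  rw [emb_apply_coe]

theorem Adm.tame {F : (W → ℝ) → ℝ} (hF : Adm S F) : Tame (O := S) (fun ψ => F (emb S ψ)) := by
  obtain ⟨C, a, hC, ha, hb⟩ := hF
  refine ⟨C, a, ?_⟩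
  intro ψ
  have := hb (emb S ψ) (supp_emb ψ)
  rwa [sum_abs_emb] at this

theorem Adm.tame_rest {F : (W → ℝ) → ℝ} (hF : Adm S F) (hA : A ⊆ S) {φA : W → ℝ}
    (hφ : Supp A φA) : Tame (O := S \ A) (fun ψ => F (φA + emb (S \ A) ψ)) := by
  obtain ⟨C, a, hC, ha, hb⟩ := hF
  refine ⟨C * Real.exp (a * ∑ x ∈ S, |φA x|), a, ?_⟩
  intro ψ
  have h1 : Supp S (φA + emb (S \ A) ψ) :=
    (hφ.mono hA).add ((supp_emb ψ).mono Finset.sdiff_subset)
  refine (hb _ h1).trans ?_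
  rw [mul_assoc, ← Real.exp_add, ← mul_add]
  apply mul_le_mul_of_nonneg_left _ hC
  rw [Real.exp_le_exp]
  apply mul_le_mul_of_nonneg_left _ ha
  have h2 : ∑ x ∈ S, |(φA + emb (S \ A) ψ) x| ≤ ∑ x ∈ S, |φA x| + ∑ x ∈ S, |emb (S \ A) ψ x| := by
    rw [← Finset.sum_add_distrib]
    apply Finset.sum_le_sum
    intro x _
    exact abs_add_le _ _
  refine h2.trans (add_le_add le_rfl (le_of_eq ?_))
  rw [← sum_abs_emb]
  symm
  apply Finset.sum_subset Finset.sdiff_subset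
  intro x _ hx
  rw [emb_apply_not hx, abs_zero]

theorem Adm.tame_restr {F : (W → ℝ) → ℝ} (hF : Adm S F) (hA : A ⊆ S) :
    Tame (O := A) (fun ψ => F (emb A ψ)) := by
  obtain ⟨C, a, hC, ha, hb⟩ := hF
  refine ⟨C, a, ?_⟩
  intro ψ
  refine (hb _ ((supp_emb ψ).mono hA)).trans (le_of_eq ?_)
  rw [← sum_abs_emb]
  congr 3
  symm
  apply Finset.sum_subset hA
  intro x _ hx
  rw [emb_apply_not hx, abs_zero]

end Pool.Agent.LR
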