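import Pool.Agent.LR.B6.Defs

/-!
# LR-B6 module Bern: expectations over Bernoulli random subsets
-/

set_option autoImplicit false

noncomputable section

open scoped BigOperators

namespace Pool.Agent.LR

variable {ι : Type*} [DecidableEq ι]

theorem EB_empty (p : ι → ℝ) (Φ : Finset ι → ℝ) : EB (∅ : Finset ι) p Φ = Φ ∅ := by
  simp [EB, bern]

theorem EB_insert {E : Finset ι} {e : ι} (he : e ∉ E) (p : ι → ℝ) (Φ : Finset ι → ℝ) :
    EB (insert e E) p Φ
      = p e * EB E p (fun ω => Φ (insert e ω)) + (1 - p e) * EB E p Φ := by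
  have hinj : Set.InjOn (fun ω : Finset ι => insert e ω) (E.powerset : Set (Finset ι)) := by
    intro a ha b hb hab
    have ha' : e ∉ a := fun h => he (Finset.mem_powerset.1 ha h)
    have hb' : e ∉ b := fun h => he (Finset.mem_powerset.1 hb h)
    have h1 : (insert e a).erase e = (insert e b).erase e := by
      simp only at hab
      rw [hab]
    rwa [Finset.erase_insert ha', Finset.erase_insert hb'] at h1
  have hdisj : Disjoint E.powerset (E.powerset.image (insert e)) := by
    rw [Finset.disjoint_left]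
    intro a ha hb
    obtain ⟨b, _, rfl⟩ := Finset.mem_image.1 hb
    exact he (Finset.mem_powerset.1 ha (Finset.mem_insert_self e b))
  unfold EB
  rw [Finset.powerset_insert, Finset.sum_union hdisj, Finset.sum_image hinj, add_comm,
    Finset.mul_sum, Finset.mul_sum]
  congr 1
  · apply Finset.sum_congr rfl
    intro ω hω
    have hω' : ω ⊆ E := Finset.mem_powerset.1 hω
    have h1 : e ∉ ω := fun h => he (hω' h)
    have h2 : insert e E \ insert e ω = E \ ω := by
      rw [Finset.insert_sdiff_insert]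
      exact Finset.sdiff_insert_of_notMem he ω
    unfold bern
    rw [Finset.prod_insert h1, h2]
    ring
  · apply Finset.sum_congr rfl
    intro ω hω
    have hω' : ω ⊆ E := Finset.mem_powerset.1 hω
    have h1 : e ∉ ω := fun h => he (hω' h)
    have h2 : insert e E \ ω = insert e (E \ ω) := Finset.insert_sdiff_of_notMem E h1
    have h3 : e ∉ E \ ω := fun h => he (Finset.mem_sdiff.1 h).1
    unfold bern
    rw [h2, Finset.prod_insert h3]
    ring

theorem EB_congr {E : Finset ι} {p : ι → ℝ} {Φ Ψ : Finset ι → ℝ} (h : ∀ ω, ω ⊆ E → Φ ω = Ψ ω) :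
    EB E p Φ = EB E p Ψ := by
  unfold EB
  apply Finset.sum_congr rfl
  intro ω hω
  rw [h ω (Finset.mem_powerset.1 hω)]

theorem EB_congr_p {E : Finset ι} {p p' : ι → ℝ} {Φ : Finset ι → ℝ} (h : ∀ e ∈ E, p e = p' e) :
    EB E p Φ = EB E p' Φ := by
  unfold EB
  apply Finset.sum_congr rfl
  intro ω hω
  have hω' : ω ⊆ E := Finset.mem_powerset.1 hω
  have h1 : ∏ e ∈ ω, p e = ∏ e ∈ ω, p' e := Finset.prod_congr rfl (fun e he => h e (hω' he))
  have h2 : ∏ e ∈ E \ ω, (1 - p e) = ∏ e ∈ E \ ω, (1 - p' e) :=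
    Finset.prod_congr rfl (fun e he => by rw [h e (Finset.mem_sdiff.1 he).1])
  unfold bern
  rw [h1, h2]

/-- Almost sure congruence: only subsets of edges with nonzero probability matter. -/
theorem EB_congr_as {E : Finset ι} {p : ι → ℝ} {Φ Ψ : Finset ι → ℝ}
    (h : ∀ ω, ω ⊆ E → (∀ e ∈ ω, p e ≠ 0) → Φ ω = Ψ ω) : EB E p Φ = EB E p Ψ := by
  unfold EB
  apply Finset.sum_congr rfl
  intro ω hω
  have hω' : ω ⊆ E := Finset.mem_powerset.1 hω
  by_cases hz : ∀ e ∈ ω, p e ≠ 0
  · rw [h ω hω' hz]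
  · push Not at hz
    obtain ⟨e, he, hpe⟩ := hz
    have : bern E p ω = 0 := by
      unfold bern
      rw [Finset.prod_eq_zero he hpe, zero_mul]
    rw [this, zero_mul, zero_mul]

theorem EB_const_mul (E : Finset ι) (p : ι → ℝ) (a : ℝ) (Φ : Finset ι → ℝ) :
    EB E p (fun ω => a * Φ ω) = a * EB E p Φ := by
  unfold EB
  rw [Finset.mul_sum]
  apply Finset.sum_congr rfl
  intro ω _
  ring

theorem EB_mul_const (E : Finset ι) (p : ι → ℝ) (a : ℝ) (Φ : Finset ι → ℝ) :
    EB E p (fun ω => Φ ω * a) = EB E p Φ * a := by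
  unfold EB
  rw [Finset.sum_mul]
  apply Finset.sum_congr rfl
  intro ω _
  ring

theorem EB_add (E : Finset ι) (p : ι → ℝ) (Φ Ψ : Finset ι → ℝ) :
    EB E p (fun ω => Φ ω + Ψ ω) = EB E p Φ + EB E p Ψ := by
  unfold EB
  rw [← Finset.sum_add_distrib]
  apply Finset.sum_congr rfl
  intro ω _
  ring

theorem EB_sum {τ : Type*} (E : Finset ι) (p : ι → ℝ) (T : Finset τ) (Φ : τ → Finset ι → ℝ) :
    EB E p (fun ω => ∑ t ∈ T, Φ t ω) = ∑ t ∈ T, EB E p (Φ t) := by
  unfold EB
  rw [Finset.sum_comm]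
  apply Finset.sum_congr rfl
  intro ω _
  rw [Finset.mul_sum]

theorem EB_one (E : Finset ι) (p : ι → ℝ) : EB E p (fun _ => 1) = 1 := by
  induction E using Finset.induction_on with
  | empty => rw [EB_empty]
  | insert e E he ih =>
    rw [EB_insert he, ih]
    ring

theorem EB_const (E : Finset ι) (p : ι → ℝ) (a : ℝ) : EB E p (fun _ => a) = a := by
  have h := EB_const_mul E p a (fun _ => 1)
  rw [EB_one, mul_one] at h
  simpa using h

theorem bern_nonneg {E : Finset ι} {p : ι → ℝ} (hp : ∀ e ∈ E, 0 ≤ p e ∧ p e ≤ 1)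
    {ω : Finset ι} (hω : ω ⊆ E) : 0 ≤ bern E p ω := by
  unfold bern
  apply mul_nonneg
  · exact Finset.prod_nonneg (fun e he => (hp e (hω he)).1)
  · exact Finset.prod_nonneg (fun e he => by
      have := (hp e (Finset.mem_sdiff.1 he).1).2
      linarith)

theorem EB_nonneg {E : Finset ι} {p : ι → ℝ} {Φ : Finset ι → ℝ}
    (hp : ∀ e ∈ E, 0 ≤ p e ∧ p e ≤ 1) (h : ∀ ω, ω ⊆ E → 0 ≤ Φ ω) : 0 ≤ EB E p Φ := by
  unfold EB
  apply Finset.sum_nonneg
  intro ω hω
  exact mul_nonneg (bern_nonneg hp (Finset.mem_powerset.1 hω)) (h ω (Finset.mem_powerset.1 hω))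

theorem EB_mono {E : Finset ι} {p : ι → ℝ} {Φ Ψ : Finset ι → ℝ}
    (hp : ∀ e ∈ E, 0 ≤ p e ∧ p e ≤ 1) (h : ∀ ω, ω ⊆ E → Φ ω ≤ Ψ ω) : EB E p Φ ≤ EB E p Ψ := by
  unfold EB
  apply Finset.sum_le_sum
  intro ω hω
  exact mul_le_mul_of_nonneg_left (h ω (Finset.mem_powerset.1 hω))
    (bern_nonneg hp (Finset.mem_powerset.1 hω))

theorem EB_mono_as {E : Finset ι} {p : ι → ℝ} {Φ Ψ : Finset ι → ℝ}
    (hp : ∀ e ∈ E, 0 ≤ p e ∧ p e ≤ 1)
    (h : ∀ ω, ω ⊆ E → (∀ e ∈ ω, p e ≠ 0) → Φ ω ≤ Ψ ω) : EB E p Φ ≤ EB E p Ψ := by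
  unfold EB
  apply Finset.sum_le_sum
  intro ω hω
  have hω' : ω ⊆ E := Finset.mem_powerset.1 hω
  by_cases hz : ∀ e ∈ ω, p e ≠ 0
  · exact mul_le_mul_of_nonneg_left (h ω hω' hz) (bern_nonneg hp hω')
  · push Not at hz
    obtain ⟨e, he, hpe⟩ := hz
    have : bern E p ω = 0 := by
      unfold bern
      rw [Finset.prod_eq_zero he hpe, zero_mul]
    rw [this, zero_mul, zero_mul]

theorem EB_union {E₁ E₂ : Finset ι} (h : Disjoint E₁ E₂) (p : ι → ℝ) (Φ : Finset ι → ℝ) :
    EB (E₁ ∪ E₂) p Φ = EB E₁ p (fun ω₁ => EB E₂ p (fun ω₂ => Φ (ω₁ ∪ ω₂))) := by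
  induction E₁ using Finset.induction_on generalizing Φ with
  | empty => simp [EB_empty]
  | insert e E he ih =>
    have h1 : Disjoint E E₂ := Finset.disjoint_of_subset_left (Finset.subset_insert e E) h
    have h2 : e ∉ E₂ := Finset.disjoint_left.1 h (Finset.mem_insert_self e E)
    have h3 : e ∉ E ∪ E₂ := by
      rw [Finset.mem_union]
      rintro (h | h)
      · exact he h
      · exact h2 h
    rw [Finset.insert_union, EB_insert h3, EB_insert he, ih h1, ih h1]
    congr 2
    apply EB_congr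
    intro ω₁ _
    apply EB_congr
    intro ω₂ _
    rw [Finset.insert_union]

/-- Marginals. -/
theorem EB_marg {E₁ E : Finset ι} (h : E₁ ⊆ E) (p : ι → ℝ) (Φ : Finset ι → ℝ) :
    EB E p (fun ω => Φ (ω ∩ E₁)) = EB E₁ p Φ := by
  have hE : E = E₁ ∪ (E \ E₁) := (Finset.union_sdiff_of_subset h).symm
  have hd : Disjoint E₁ (E \ E₁) := Finset.disjoint_sdiff
  calc EB E p (fun ω => Φ (ω ∩ E₁))
      = EB (E₁ ∪ (E \ E₁)) p (fun ω => Φ (ω ∩ E₁)) := by rw [← hE]
    _ = EB E₁ p (fun ω₁ => EB (E \ E₁) p (fun ω₂ => Φ ((ω₁ ∪ ω₂) ∩ E₁))) := EB_union hd p _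
    _ = EB E₁ p (fun ω₁ => EB (E \ E₁) p (fun _ => Φ ω₁)) := by
        apply EB_congr
        intro ω₁ h1
        apply EB_congr
        intro ω₂ h2
        have : (ω₁ ∪ ω₂) ∩ E₁ = ω₁ := by
          rw [Finset.union_inter_distrib_right, Finset.inter_eq_left.2 h1]
          have : ω₂ ∩ E₁ = ∅ := by
            rw [← Finset.disjoint_iff_inter_eq_empty]
            exact Finset.disjoint_of_subset_left h2 hd.symm
          rw [this, Finset.union_empty]
        rw [this]
    _ = EB E₁ p Φ := by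
        apply EB_congr
        intro ω₁ _
        exact EB_const _ _ _

open Classical in
/-- All edges of `E` are closed. -/
theorem EB_closed (E : Finset ι) (p : ι → ℝ) :
    EB E p (fun ω => if ω = ∅ then 1 else 0) = ∏ e ∈ E, (1 - p e) := by
  unfold EB
  rw [Finset.sum_eq_single (∅ : Finset ι)]
  · simp [bern]
  · intro ω _ h
    simp [h]
  · intro h
    exact absurd (Finset.empty_mem_powerset E) h

open Classical in
/-- All edges of the subset `K` are closed. -/
theorem EB_miss {K E : Finset ι} (hK : K ⊆ E) (p : ι → ℝ) :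
    EB E p (fun ω => if ω ∩ K = ∅ then 1 else 0) = ∏ e ∈ K, (1 - p e) := by
  have := EB_marg hK p (fun ω => if ω = ∅ then (1 : ℝ) else 0)
  rw [this, EB_closed]

open Classical in
/-- Union bound. -/
theorem EB_bound (E : Finset ι) {p : ι → ℝ} (hp : ∀ e ∈ E, 0 ≤ p e ∧ p e ≤ 1) (L : ι → Prop) :
    EB E p (fun ω => if ∃ e ∈ ω, L e then 1 else 0) ≤ ∑ e ∈ E.filter L, p e := by
  have h1 : EB E p (fun ω => if ∃ e ∈ ω, L e then 1 else 0)
      = 1 - EB E p (fun ω => if ω ∩ (E.filter L) = ∅ then 1 else 0) := by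
    have h2 : EB E p (fun ω => (if ∃ e ∈ ω, L e then (1 : ℝ) else 0)
        + (if ω ∩ (E.filter L) = ∅ then 1 else 0)) = EB E p (fun _ => 1) := by
      apply EB_congr
      intro ω hω
      by_cases h : ∃ e ∈ ω, L e
      · obtain ⟨e, he, hL⟩ := h
        have : ¬ (ω ∩ (E.filter L) = ∅) := by
          intro h0
          have : e ∈ ω ∩ (E.filter L) :=
            Finset.mem_inter.2 ⟨he, Finset.mem_filter.2 ⟨hω he, hL⟩⟩
          rw [h0] at this
          simp at this
        rw [if_pos ⟨e, he, hL⟩, if_neg this]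
        norm_num
      · have : ω ∩ (E.filter L) = ∅ := by
          rw [Finset.eq_empty_iff_forall_notMem]
          intro e he
          exact h ⟨e, (Finset.mem_inter.1 he).1, (Finset.mem_filter.1 (Finset.mem_inter.1 he).2).2⟩
        rw [if_neg h, if_pos this]
        norm_num
    rw [EB_add, EB_one] at h2
    linarith
  rw [h1, EB_miss (Finset.filter_subset L E) p]
  have h3 : ∀ K : Finset ι, K ⊆ E → 1 - ∏ e ∈ K, (1 - p e) ≤ ∑ e ∈ K, p e := by
    intro K
    induction K using Finset.induction_on with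
    | empty => intro _; simp
    | insert e K he ih =>
      intro hK
      rw [Finset.prod_insert he, Finset.sum_insert he]
      have h4 := ih (fun x hx => hK (Finset.mem_insert_of_mem hx))
      have h5 := hp e (hK (Finset.mem_insert_self e K))
      have h6 : (∏ x ∈ K, (1 - p x)) ≤ 1 := by
        apply Finset.prod_le_one
        · intro x hx
          have := (hp x (hK (Finset.mem_insert_of_mem hx))).2
          linarith
        · intro x hx
          have := (hp x (hK (Finset.mem_insert_of_mem hx))).1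
          linarith
      have h7 : 0 ≤ p e * (1 - ∏ x ∈ K, (1 - p x)) := mul_nonneg h5.1 (by linarith)
      nlinarith
  exact h3 _ (Finset.filter_subset L E)

/-- Monotonicity in the edge probabilities for increasing functions. -/
theorem EB_mono_p {E : Finset ι} {p p' : ι → ℝ} {Φ : Finset ι → ℝ}
    (hp : ∀ e ∈ E, 0 ≤ p e) (hpp : ∀ e ∈ E, p e ≤ p' e) (hp' : ∀ e ∈ E, p' e ≤ 1)
    (hΦ : ∀ ω ω', ω ⊆ ω' → ω' ⊆ E → Φ ω ≤ Φ ω') : EB E p Φ ≤ EB E p' Φ := by
  induction E using Finset.induction_on generalizing Φ with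
  | empty => simp [EB_empty]
  | insert e E he ih =>
    rw [EB_insert he, EB_insert he]
    have hE : E ⊆ insert e E := Finset.subset_insert e E
    have i1 := ih (Φ := fun ω => Φ (insert e ω)) (fun x hx => hp x (hE hx))
      (fun x hx => hpp x (hE hx)) (fun x hx => hp' x (hE hx))
      (fun ω ω' h h' => hΦ _ _ (Finset.insert_subset_insert e h) (Finset.insert_subset_insert e h'))
    have i2 := ih (Φ := Φ) (fun x hx => hp x (hE hx))
      (fun x hx => hpp x (hE hx)) (fun x hx => hp' x (hE hx))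
      (fun ω ω' h h' => hΦ _ _ h (h'.trans hE))
    have i3 : EB E p' Φ ≤ EB E p' (fun ω => Φ (insert e ω)) := by
      apply EB_mono
      · intro x hx
        exact ⟨(hp x (hE hx)).trans (hpp x (hE hx)), hp' x (hE hx)⟩
      · intro ω hω
        exact hΦ _ _ (Finset.subset_insert e ω) (Finset.insert_subset_insert e hω)
    have j0 := hp e (Finset.mem_insert_self e E)
    have j1 := hpp e (Finset.mem_insert_self e E)
    have j2 := hp' e (Finset.mem_insert_self e E)
    have k1 : p e * EB E p (fun ω => Φ (insert e ω)) ≤ p e * EB E p' (fun ω => Φ (insert e ω)) :=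
      mul_le_mul_of_nonneg_left i1 j0
    have k2 : (1 - p e) * EB E p Φ ≤ (1 - p e) * EB E p' Φ :=
      mul_le_mul_of_nonneg_left i2 (by linarith)
    have k3 : 0 ≤ (p' e - p e) * (EB E p' (fun ω => Φ (insert e ω)) - EB E p' Φ) :=
      mul_nonneg (by linarith) (by linarith)
    nlinarith

/-- Fubini for two independent Bernoulli sets. -/
theorem EB_comm {τ : Type*} [DecidableEq τ] (E : Finset ι) (p : ι → ℝ) (G : Finset τ) (q : τ → ℝ)
    (Φ : Finset ι → Finset τ → ℝ) :
    EB E p (fun ω => EB G q (fun D => Φ ω D)) = EB G q (fun D => EB E p (fun ω => Φ ω D)) := by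
  unfold EB
  simp only [Finset.mul_sum]
  rw [Finset.sum_comm]
  apply Finset.sum_congr rfl
  intro D _
  apply Finset.sum_congr rfl
  intro ω _
  ring

end Pool.Agent.LR
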