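import Pool.Agent.LR.IDefs

/-!
# Section 7.1, 7.2: definitions (percolation given the field, exploration, rest law)

Edges are ORDERED pairs of `S ×ˢ S`, the ordered pair `(x,y)` carries the coupling `J x y / 2`.
Given the real field `φ` (think of `φ = emb S ψ`) the edges are independent, `(x,y)` is open with
probability `pe J φ (x,y) = 1 - exp (-J x y (φ x φ y)⁺)`, and the ghost edge of `x` is open with
probability `pg f φ x = 1 - exp (-2 f x (φ x)⁺)`, where `f ≥ 0` is the absorbed tilt.

The explored set is `A = {x : x is connected to R ∪ {open ghost edges}}`: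
* exploration (i) of the blueprint is `f = 0`, `R` = the outer region;
* exploration (ii) of the blueprint is `R = ∅`, `f` = the absorbed tilt.
The edges are summed out: everything is expressed by `PA J S R f φ A` = probability given `φ` that
the explored set is `A`.
-/

set_option autoImplicit false

noncomputable section

open scoped BigOperators

namespace Pool.Agent.LR

/-! ## Bernoulli measures on subsets of a finite set -/

section Bern

variable {ι : Type*} [DecidableEq ι]

/-- Bernoulli weight of the subset `ω` of `E`. -/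
def bern (E : Finset ι) (p : ι → ℝ) (ω : Finset ι) : ℝ :=
  (∏ e ∈ ω, p e) * ∏ e ∈ E \ ω, (1 - p e)

/-- Expectation of `Φ ω`, `ω` a Bernoulli random subset of `E`. -/
def EB (E : Finset ι) (p : ι → ℝ) (Φ : Finset ι → ℝ) : ℝ :=
  ∑ ω ∈ E.powerset, bern E p ω * Φ ω

end Bern

section Perc

variable {W : Type*} [DecidableEq W]

/-- Probability that the ordered edge `e` is open given `φ`. -/
def pe (J : W → W → ℝ) (φ : W → ℝ) (e : W × W) : ℝ :=
  1 - Real.exp (-(J e.1 e.2 * max 0 (φ e.1 * φ e.2)))

/-- The same for edges between two positive sites (`0` for all other edges). -/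
def pp (J : W → W → ℝ) (φ : W → ℝ) (e : W × W) : ℝ :=
  1 - Real.exp (-(J e.1 e.2 * (max 0 (φ e.1) * max 0 (φ e.2))))

/-- Probability that the ghost edge of `x` is open given `φ`. -/
def pg (f φ : W → ℝ) (x : W) : ℝ := 1 - Real.exp (-(2 * f x * max 0 (φ x)))

open Classical in
/-- Probability (given `φ`) that the explored set is `A`. -/
def PA (J : W → W → ℝ) (S R : Finset W) (f φ : W → ℝ) (A : Finset W) : ℝ :=
  EB (S ×ˢ S) (pe J φ) (fun ω => EB S (pg f φ) (fun D => if reach S ω (R ∪ D) = A then 1 else 0))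

open Classical in
/-- The inner part of `PA`: inside `A` the seeds reach all of `A`. -/
def kin (J : W → W → ℝ) (A R : Finset W) (f φ : W → ℝ) : ℝ :=
  EB (A ×ˢ A) (pe J φ) (fun ω => EB A (pg f φ) (fun D => if reach A ω (R ∪ D) = A then 1 else 0))

/-- `A` is connected to `D` by chains of points OF `A` with steps in the relation `s`
(`s u v` = `len (u - v) ≤ r` in the application; then the chain is `chainIn r A y x`). -/
def Chn (s : W → W → Prop) (D A : Finset W) : Prop :=
  ∀ x ∈ A, ∃ y ∈ A, y ∈ D ∧ Relation.ReflTransGen (fun u v => u ∈ A ∧ v ∈ A ∧ s u v) y x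

/-- The possible seeds: `R` and the sites with `f > 0`. -/
def seeds (S R : Finset W) (f : W → ℝ) : Finset W := R ∪ S.filter (fun x => f x ≠ 0)

open Classical in
/-- `q(φ)`: probability that a positive cluster meets `R` and `T`. -/
def qpos (J : W → W → ℝ) (S R T : Finset W) (φ : W → ℝ) : ℝ :=
  EB (S ×ˢ S) (pp J φ) (fun ω => if ∃ y ∈ R, ∃ x ∈ T, conn ω y x then 1 else 0)

open Classical in
/-- `q'(φ)`: probability that a point with an open ghost edge is connected to `R`
(computed with positive edges only, hence visibly increasing in `φ`). -/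
def qgh (J : W → W → ℝ) (S R : Finset W) (f φ : W → ℝ) : ℝ :=
  EB (S ×ˢ S) (pp J φ) (fun ω => EB S (pg f φ) (fun D => if ∃ y ∈ D, ∃ x ∈ R, conn ω y x then 1 else 0))

/-! ## The rest law. The form is `M = Qfr J S + N`, `N` = pins form (any symmetric form). -/

/-- The exponent `b_y = f_y + ∑_{x ∈ A} J x y |φA x|` of the rest factor. -/
def bb (J : W → W → ℝ) (A : Finset W) (f φA : W → ℝ) : W → ℝ :=
  fun y => f y + ∑ x ∈ A, J x y * |φA x|

/-- The rest factor `F(ψ) = ∏_{y ∈ O} exp (-b_y |ψ_y|)`. -/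
def Frest (O : Finset W) (b : W → ℝ) (ψ : O → ℤ) : ℝ :=
  Real.exp (-∑ y ∈ O, b y * |emb O ψ y|)

/-- The weight of the explored part (does not depend on the not absorbed tilt). -/
def KA (J : W → W → ℝ) (M : BF W) (R : Finset W) (f : W → ℝ) (A : Finset W) (φA : W → ℝ) : ℝ :=
  kin J A R f φA * Real.exp (-(1 / 2) * M φA φA) * Real.exp (pr A f φA)

/-- Glue a field on `A` and a field on `S \ A`. -/
def glue (S A : Finset W) (ψA : A → ℤ) (ψO : (S \ A : Finset W) → ℤ) : S → ℤ :=
  fun x => if hx : x.1 ∈ A then ψA ⟨x.1, hx⟩ else ψO ⟨x.1, Finset.mem_sdiff.2 ⟨x.2, hx⟩⟩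

/-- Unnormalised expectation over the field (total tilt `h`) and the explored set. -/
def SuA (J : W → W → ℝ) (M : BF W) (S R : Finset W) (f h : W → ℝ)
    (Ξ : Finset W → (W → ℝ) → ℝ) : ℝ :=
  Su M S h (fun ψ => ∑ A ∈ S.powerset, PA J S R f (emb S ψ) A * Ξ A (emb S ψ))

/-- Expectation over the field (total tilt `h`) and the explored set. -/
def EtA (J : W → W → ℝ) (M : BF W) (S R : Finset W) (f h : W → ℝ)
    (Ξ : Finset W → (W → ℝ) → ℝ) : ℝ :=
  SuA J M S R f h Ξ / Su M S h (fun _ => 1)

/-- Rest sum: `∑_{ψO} F(ψO) exp(-M(ψO)/2 + ⟨g + f_a, ψO⟩) Φ(φA + ψO)`. -/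
def SuR (J : W → W → ℝ) (M N : BF W) (S : Finset W) (f g : W → ℝ) (A : Finset W) (φA : W → ℝ)
    (Φ : (W → ℝ) → ℝ) : ℝ :=
  Su M (S \ A) (g + fb N φA)
    (fun ψO => Frest (S \ A) (bb J A f φA) ψO * Φ (φA + emb (S \ A) ψO))

/-- Functions of the real field of at most exponential growth on `S` (all sums converge). -/
def Adm (S : Finset W) (F : (W → ℝ) → ℝ) : Prop :=
  ∃ C a : ℝ, 0 ≤ C ∧ 0 ≤ a ∧ ∀ φ, Supp S φ → |F φ| ≤ C * Real.exp (a * ∑ x ∈ S, |φ x|)

end Perc

end Pool.Agent.LR
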