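import Pool.Agent.LR.B6.Bern

/-!
# LR-B6 module PAb: basic facts on `PA`, factorisation
-/

set_option autoImplicit false
set_option linter.unusedSectionVars false

noncomputable section

open scoped BigOperators

namespace Pool.Agent.LR

variable {W : Type*} [DecidableEq W]
variable {J : W → W → ℝ} {S R A D : Finset W} {f φ φ' : W → ℝ} {ω : Finset (W × W)}

theorem pe_mem (J0 : ∀ x y, 0 ≤ J x y) (φ : W → ℝ) (e : W × W) :
    0 ≤ pe J φ e ∧ pe J φ e ≤ 1 := by
  unfold pe
  have h1 : 0 ≤ J e.1 e.2 * max 0 (φ e.1 * φ e.2) := mul_nonneg (J0 _ _) (le_max_left _ _)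
  have h2 : Real.exp (-(J e.1 e.2 * max 0 (φ e.1 * φ e.2))) ≤ 1 := by
    rw [Real.exp_le_one_iff]; linarith
  have h3 := Real.exp_pos (-(J e.1 e.2 * max 0 (φ e.1 * φ e.2)))
  constructor <;> linarith

theorem pp_mem (J0 : ∀ x y, 0 ≤ J x y) (φ : W → ℝ) (e : W × W) :
    0 ≤ pp J φ e ∧ pp J φ e ≤ 1 := by
  unfold pp
  have h1 : 0 ≤ J e.1 e.2 * (max 0 (φ e.1) * max 0 (φ e.2)) :=
    mul_nonneg (J0 _ _) (mul_nonneg (le_max_left _ _) (le_max_left _ _))
  have h2 : Real.exp (-(J e.1 e.2 * (max 0 (φ e.1) * max 0 (φ e.2)))) ≤ 1 := by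
    rw [Real.exp_le_one_iff]; linarith
  have h3 := Real.exp_pos (-(J e.1 e.2 * (max 0 (φ e.1) * max 0 (φ e.2))))
  constructor <;> linarith

theorem pg_mem (f0 : ∀ x ∈ S, 0 ≤ f x) (φ : W → ℝ) : ∀ x ∈ S, 0 ≤ pg f φ x ∧ pg f φ x ≤ 1 := by
  intro x hx
  unfold pg
  have h1 : 0 ≤ 2 * f x * max 0 (φ x) :=
    mul_nonneg (mul_nonneg (by norm_num) (f0 x hx)) (le_max_left _ _)
  have h2 : Real.exp (-(2 * f x * max 0 (φ x))) ≤ 1 := by
    rw [Real.exp_le_one_iff]; linarith
  have h3 := Real.exp_pos (-(2 * f x * max 0 (φ x)))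
  constructor <;> linarith

/-- An edge of positive probability joins two sites of the same strict sign. -/
theorem pos_of_pe_ne {e : W × W} (h : pe J φ e ≠ 0) : 0 < φ e.1 * φ e.2 := by
  by_contra hc
  apply h
  unfold pe
  rw [max_eq_left (not_lt.1 hc)]
  simp

theorem pos_of_pg_ne {x : W} (h : pg f φ x ≠ 0) : 0 < φ x := by
  by_contra hc
  apply h
  unfold pg
  rw [max_eq_left (not_lt.1 hc)]
  simp

theorem f_ne_of_pg_ne {x : W} (h : pg f φ x ≠ 0) : f x ≠ 0 := by
  intro hc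
  apply h
  unfold pg
  rw [hc]
  simp

theorem pos_of_pp_ne {e : W × W} (h : pp J φ e ≠ 0) : 0 < φ e.1 ∧ 0 < φ e.2 := by
  constructor
  · by_contra hc
    apply h
    unfold pp
    rw [max_eq_left (not_lt.1 hc)]
    simp
  · by_contra hc
    apply h
    unfold pp
    rw [max_eq_left (not_lt.1 hc)]
    simp

/-- `pe = pp` on positive edges -/
theorem pe_eq_pp {e : W × W} (h1 : 0 < φ e.1) (h2 : 0 < φ e.2) : pe J φ e = pp J φ e := by
  unfold pe pp
  rw [max_eq_right h1.le, max_eq_right h2.le, max_eq_right (mul_pos h1 h2).le]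

theorem pp_le_pe (J0 : ∀ x y, 0 ≤ J x y) (e : W × W) : pp J φ e ≤ pe J φ e := by
  by_cases h : pp J φ e = 0
  · rw [h]; exact (pe_mem J0 φ e).1
  · obtain ⟨h1, h2⟩ := pos_of_pp_ne h
    rw [pe_eq_pp h1 h2]

theorem pe_le (J0 : ∀ x y, 0 ≤ J x y) (e : W × W) : pe J φ e ≤ J e.1 e.2 * |φ e.1 * φ e.2| := by
  unfold pe
  have h1 := Real.add_one_le_exp (-(J e.1 e.2 * max 0 (φ e.1 * φ e.2)))
  have h2 : max 0 (φ e.1 * φ e.2) ≤ |φ e.1 * φ e.2| := max_le (abs_nonneg _) (le_abs_self _)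
  have h3 := mul_le_mul_of_nonneg_left h2 (J0 e.1 e.2)
  linarith

theorem adj_symm {x y : W} (h : adj ω x y) : adj ω y x := h.symm

theorem conn_symm {x y : W} (h : conn ω x y) : conn ω y x := by
  induction h with
  | refl => exact Relation.ReflTransGen.refl
  | tail _ hbc ih => exact Relation.ReflTransGen.head (adj_symm hbc) ih

theorem mem_reach {x : W} : x ∈ reach S ω D ↔ x ∈ S ∧ ∃ r ∈ D, conn ω r x := by
  classical
  unfold reach
  exact Finset.mem_filter

theorem reach_subset : reach S ω D ⊆ S := fun _ hx => (mem_reach.1 hx).1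

theorem subset_reach (h : D ⊆ S) : D ⊆ reach S ω D :=
  fun x hx => mem_reach.2 ⟨h hx, x, hx, Relation.ReflTransGen.refl⟩

/-- The combinatorial heart of the exploration: `reach S ω (R ∪ D) = A` is the conjunction of
an event on the cross edges, an event on the ghosts in `S \ A` and an event inside `A`. -/
theorem reach_eq_iff (hA : A ⊆ S) (hR : R ⊆ A) (hω : ω ⊆ S ×ˢ S) (hD : D ⊆ S) :
    reach S ω (R ∪ D) = A ↔
      (∀ e ∈ ω, e.1 ∈ A ↔ e.2 ∈ A) ∧ D ⊆ A ∧ reach A (ω ∩ (A ×ˢ A)) (R ∪ D) = A := by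
  constructor
  · intro h
    have hcl : ∀ e ∈ ω, e.1 ∈ A ↔ e.2 ∈ A := by
      intro e he
      have heS := Finset.mem_product.1 (hω he)
      constructor
      · intro h1
        rw [← h] at h1 ⊢
        obtain ⟨_, r, hr, hc⟩ := mem_reach.1 h1
        exact mem_reach.2 ⟨heS.2, r, hr, hc.tail (Or.inl he)⟩
      · intro h1
        rw [← h] at h1 ⊢
        obtain ⟨_, r, hr, hc⟩ := mem_reach.1 h1
        exact mem_reach.2 ⟨heS.1, r, hr, hc.tail (Or.inr he)⟩
    have hDA : D ⊆ A := by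
      intro x hx
      rw [← h]
      exact mem_reach.2 ⟨hD hx, x, Finset.mem_union_right _ hx, Relation.ReflTransGen.refl⟩
    refine ⟨hcl, hDA, ?_⟩
    apply Finset.Subset.antisymm reach_subset
    intro x hx
    have hx' : x ∈ reach S ω (R ∪ D) := by rw [h]; exact hx
    obtain ⟨_, r, hr, hc⟩ := mem_reach.1 hx'
    refine mem_reach.2 ⟨hx, r, hr, ?_⟩
    have hrA : r ∈ A := by
      rcases Finset.mem_union.1 hr with h1 | h1
      · exact hR h1
      · exact hDA h1
    have key : ∀ z, conn ω r z → z ∈ A ∧ conn (ω ∩ (A ×ˢ A)) r z := by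
      intro z hz
      induction hz with
      | refl => exact ⟨hrA, Relation.ReflTransGen.refl⟩
      | @tail b c _ hbc ih =>
        obtain ⟨hb, hcb⟩ := ih
        rcases hbc with h1 | h1
        · have hcA : c ∈ A := (hcl _ h1).1 hb
          exact ⟨hcA, hcb.tail (Or.inl (Finset.mem_inter.2 ⟨h1, Finset.mem_product.2 ⟨hb, hcA⟩⟩))⟩
        · have hcA : c ∈ A := (hcl _ h1).2 hb
          exact ⟨hcA, hcb.tail (Or.inr (Finset.mem_inter.2 ⟨h1, Finset.mem_product.2 ⟨hcA, hb⟩⟩))⟩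
    exact (key x hc).2
  · rintro ⟨hcl, hDA, h⟩
    apply Finset.Subset.antisymm
    · intro x hx
      obtain ⟨_, r, hr, hc⟩ := mem_reach.1 hx
      have hrA : r ∈ A := by
        rcases Finset.mem_union.1 hr with h1 | h1
        · exact hR h1
        · exact hDA h1
      have key : ∀ z, conn ω r z → z ∈ A := by
        intro z hz
        induction hz with
        | refl => exact hrA
        | @tail b c _ hbc ih =>
          rcases hbc with h1 | h1
          · exact (hcl _ h1).1 ih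
          · exact (hcl _ h1).2 ih
      exact key x hc
    · intro x hx
      have hx' : x ∈ reach A (ω ∩ (A ×ˢ A)) (R ∪ D) := by rw [h]; exact hx
      obtain ⟨_, r, hr, hc⟩ := mem_reach.1 hx'
      refine mem_reach.2 ⟨hA hx, r, hr, ?_⟩
      have key : ∀ z, conn (ω ∩ (A ×ˢ A)) r z → conn ω r z := by
        intro z hz
        induction hz with
        | refl => exact Relation.ReflTransGen.refl
        | @tail b c _ hbc ih =>
          rcases hbc with h1 | h1
          · exact ih.tail (Or.inl (Finset.mem_inter.1 h1).1)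
          · exact ih.tail (Or.inr (Finset.mem_inter.1 h1).1)
      exact key x hc

theorem PA_nonneg (J0 : ∀ x y, 0 ≤ J x y) (f0 : ∀ x ∈ S, 0 ≤ f x) : 0 ≤ PA J S R f φ A := by
  unfold PA
  apply EB_nonneg (fun e _ => pe_mem J0 φ e)
  intro ω _
  apply EB_nonneg (pg_mem f0 φ)
  intro D _
  split_ifs <;> norm_num

theorem sum_PA : ∑ A ∈ S.powerset, PA J S R f φ A = 1 := by
  unfold PA
  rw [← EB_sum]
  have h : ∀ ω : Finset (W × W), ω ⊆ S ×ˢ S → ∑ A ∈ S.powerset,
      EB S (pg f φ) (fun D => if reach S ω (R ∪ D) = A then (1 : ℝ) else 0) = 1 := by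
    intro ω _
    rw [← EB_sum]
    refine (EB_congr ?_).trans (EB_one S (pg f φ))
    intro D _
    rw [Finset.sum_ite_eq]
    rw [if_pos (Finset.mem_powerset.2 reach_subset)]
  rw [EB_congr h, EB_one]

theorem PA_le_one (J0 : ∀ x y, 0 ≤ J x y) (f0 : ∀ x ∈ S, 0 ≤ f x) (hA : A ⊆ S) :
    PA J S R f φ A ≤ 1 := by
  rw [← sum_PA (J := J) (S := S) (R := R) (f := f) (φ := φ)]
  exact Finset.single_le_sum (f := fun A => PA J S R f φ A)
    (fun B _ => PA_nonneg J0 f0) (Finset.mem_powerset.2 hA)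

theorem PA_eq_zero (hR : R ⊆ S) (h : ¬ R ⊆ A) : PA J S R f φ A = 0 := by
  unfold PA
  have h1 : ∀ ω : Finset (W × W), ω ⊆ S ×ˢ S →
      EB S (pg f φ) (fun D => if reach S ω (R ∪ D) = A then (1 : ℝ) else 0) = 0 := by
    intro ω _
    refine (EB_congr ?_).trans (EB_const S (pg f φ) 0)
    intro D _
    rw [if_neg]
    intro h0
    apply h
    intro x hx
    rw [← h0]
    exact mem_reach.2 ⟨hR hx, x, Finset.mem_union_left _ hx, Relation.ReflTransGen.refl⟩
  rw [EB_congr h1, EB_const]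

theorem kin_congr (h : ∀ x ∈ A, φ x = φ' x) : kin J A R f φ = kin J A R f φ' := by
  unfold kin
  have h1 : ∀ e ∈ A ×ˢ A, pe J φ e = pe J φ' e := by
    intro e he
    have := Finset.mem_product.1 he
    unfold pe
    rw [h _ this.1, h _ this.2]
  have h2 : ∀ x ∈ A, pg f φ x = pg f φ' x := by
    intro x hx
    unfold pg
    rw [h x hx]
  rw [EB_congr_p h1]
  apply EB_congr
  intro ω _
  rw [EB_congr_p h2]

theorem kin_nonneg (J0 : ∀ x y, 0 ≤ J x y) (f0 : ∀ x ∈ A, 0 ≤ f x) : 0 ≤ kin J A R f φ := by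
  unfold kin
  apply EB_nonneg (fun e _ => pe_mem J0 φ e)
  intro ω _
  apply EB_nonneg (pg_mem f0 φ)
  intro D _
  split_ifs <;> norm_num

open Classical in
theorem EB_indep {ι : Type*} [DecidableEq ι] {E E₁ K : Finset ι} (h1 : E₁ ⊆ E) (hK : K ⊆ E)
    (hd : Disjoint E₁ K) (p : ι → ℝ) (H : Finset ι → ℝ) :
    EB E p (fun ω => (if ω ∩ K = ∅ then 1 else 0) * H (ω ∩ E₁)) =
      (∏ e ∈ K, (1 - p e)) * EB E₁ p H := by
  have hsub : E₁ ∪ K ⊆ E := Finset.union_subset h1 hK
  have e1 : EB E p (fun ω => (if ω ∩ K = ∅ then (1 : ℝ) else 0) * H (ω ∩ E₁)) =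
      EB E p (fun ω => (fun ω' : Finset ι => (if ω' ∩ K = ∅ then (1 : ℝ) else 0) * H (ω' ∩ E₁))
        (ω ∩ (E₁ ∪ K))) := by
    apply EB_congr
    intro ω _
    have a1 : ω ∩ (E₁ ∪ K) ∩ K = ω ∩ K := by
      rw [Finset.inter_assoc, Finset.inter_eq_right.2 (Finset.subset_union_right)]
    have a2 : ω ∩ (E₁ ∪ K) ∩ E₁ = ω ∩ E₁ := by
      rw [Finset.inter_assoc, Finset.inter_eq_right.2 (Finset.subset_union_left)]
    simp only [a1, a2]
  have e0 := EB_marg hsub p (fun ω' : Finset ι => (if ω' ∩ K = ∅ then (1 : ℝ) else 0) * H (ω' ∩ E₁))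
  rw [e1, e0, EB_union hd]
  have e2 : ∀ ω₁, ω₁ ⊆ E₁ → EB K p (fun ω₂ => (if (ω₁ ∪ ω₂) ∩ K = ∅ then (1 : ℝ) else 0) *
      H ((ω₁ ∪ ω₂) ∩ E₁)) = (∏ e ∈ K, (1 - p e)) * H ω₁ := by
    intro ω₁ hω₁
    rw [← EB_closed K p, ← EB_mul_const]
    apply EB_congr
    intro ω₂ hω₂
    have b1 : (ω₁ ∪ ω₂) ∩ K = ω₂ := by
      rw [Finset.union_inter_distrib_right, Finset.inter_eq_left.2 hω₂]
      have : ω₁ ∩ K = ∅ := by
        rw [← Finset.disjoint_iff_inter_eq_empty]
        exact Finset.disjoint_of_subset_left hω₁ hd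
      rw [this, Finset.empty_union]
    have b2 : (ω₁ ∪ ω₂) ∩ E₁ = ω₁ := by
      rw [Finset.union_inter_distrib_right, Finset.inter_eq_left.2 hω₁]
      have : ω₂ ∩ E₁ = ∅ := by
        rw [← Finset.disjoint_iff_inter_eq_empty]
        exact Finset.disjoint_of_subset_left hω₂ hd.symm
      rw [this, Finset.union_empty]
    rw [b1, b2]
  rw [EB_congr e2, EB_const_mul]

/-- Factorisation of the law of the explored set. -/
theorem PA_eq (Js : ∀ x y, J x y = J y x) (hA : A ⊆ S) (hR : R ⊆ A) :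
    PA J S R f φ A = kin J A R f φ *
      Real.exp (-∑ x ∈ A, ∑ y ∈ S \ A, 2 * (J x y * max 0 (φ x * φ y))) *
      Real.exp (-∑ y ∈ S \ A, 2 * f y * max 0 (φ y)) := by
  classical
  set O := S \ A with hO
  have hOS : O ⊆ S := Finset.sdiff_subset
  have hAO : Disjoint A O := Finset.disjoint_sdiff
  have hK1 : A ×ˢ O ⊆ S ×ˢ S := Finset.product_subset_product hA hOS
  have hK2 : O ×ˢ A ⊆ S ×ˢ S := Finset.product_subset_product hOS hA
  set K := (A ×ˢ O) ∪ (O ×ˢ A) with hK
  have hKS : K ⊆ S ×ˢ S := Finset.union_subset hK1 hK2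
  have hAA : A ×ˢ A ⊆ S ×ˢ S := Finset.product_subset_product hA hA
  have hdAK : Disjoint (A ×ˢ A) K := by
    rw [Finset.disjoint_left]
    intro e he hek
    have h1 := Finset.mem_product.1 he
    rcases Finset.mem_union.1 hek with h2 | h2
    · exact Finset.disjoint_left.1 hAO h1.2 (Finset.mem_product.1 h2).2
    · exact Finset.disjoint_left.1 hAO h1.1 (Finset.mem_product.1 h2).1
  have hdK : Disjoint (A ×ˢ O) (O ×ˢ A) := by
    rw [Finset.disjoint_left]
    intro e he hek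
    exact Finset.disjoint_left.1 hAO (Finset.mem_product.1 he).1 (Finset.mem_product.1 hek).1
  -- the event
  have hev : ∀ ω : Finset (W × W), ω ⊆ S ×ˢ S → ∀ D : Finset W, D ⊆ S →
      (if reach S ω (R ∪ D) = A then (1 : ℝ) else 0) =
        (if ω ∩ K = ∅ then 1 else 0) * ((if D ∩ O = ∅ then 1 else 0) *
          (if reach A (ω ∩ (A ×ˢ A)) (R ∪ (D ∩ A)) = A then 1 else 0)) := by
    intro ω hω D hD
    have c1 : (∀ e ∈ ω, e.1 ∈ A ↔ e.2 ∈ A) ↔ ω ∩ K = ∅ := by
      constructor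
      · intro h
        rw [Finset.eq_empty_iff_forall_notMem]
        intro e he
        have h1 := (Finset.mem_inter.1 he).1
        rcases Finset.mem_union.1 (Finset.mem_inter.1 he).2 with h2 | h2
        · have h3 := Finset.mem_product.1 h2
          exact Finset.disjoint_left.1 hAO ((h e h1).1 h3.1) h3.2
        · have h3 := Finset.mem_product.1 h2
          exact Finset.disjoint_left.1 hAO ((h e h1).2 h3.2) h3.1
      · intro h e he
        have heS := Finset.mem_product.1 (hω he)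
        constructor
        · intro h1
          by_contra h2
          have : e ∈ ω ∩ K := Finset.mem_inter.2 ⟨he, Finset.mem_union_left _
            (Finset.mem_product.2 ⟨h1, Finset.mem_sdiff.2 ⟨heS.2, h2⟩⟩)⟩
          rw [h] at this
          simp at this
        · intro h1
          by_contra h2
          have : e ∈ ω ∩ K := Finset.mem_inter.2 ⟨he, Finset.mem_union_right _
            (Finset.mem_product.2 ⟨Finset.mem_sdiff.2 ⟨heS.1, h2⟩, h1⟩)⟩
          rw [h] at this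
          simp at this
    have c2 : D ⊆ A ↔ D ∩ O = ∅ := by
      constructor
      · intro h
        rw [← Finset.disjoint_iff_inter_eq_empty]
        exact Finset.disjoint_of_subset_left h hAO
      · intro h x hx
        by_contra h2
        have : x ∈ D ∩ O := Finset.mem_inter.2 ⟨hx, Finset.mem_sdiff.2 ⟨hD hx, h2⟩⟩
        rw [h] at this
        simp at this
    by_cases h1 : ω ∩ K = ∅
    · by_cases h2 : D ∩ O = ∅
      · have h3 : D ∩ A = D := Finset.inter_eq_left.2 (c2.2 h2)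
        rw [if_pos h1, if_pos h2, one_mul, one_mul, h3]
        by_cases h4 : reach A (ω ∩ (A ×ˢ A)) (R ∪ D) = A
        · rw [if_pos h4, if_pos ((reach_eq_iff hA hR hω hD).2 ⟨c1.2 h1, c2.2 h2, h4⟩)]
        · rw [if_neg h4, if_neg (fun h => h4 ((reach_eq_iff hA hR hω hD).1 h).2.2)]
      · rw [if_neg h2, if_neg (fun h => h2 (c2.1 ((reach_eq_iff hA hR hω hD).1 h).2.1))]
        ring
    · rw [if_neg h1, if_neg (fun h => h1 (c1.1 ((reach_eq_iff hA hR hω hD).1 h).1))]
      ring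
  have step1 : PA J S R f φ A = EB (S ×ˢ S) (pe J φ) (fun ω => (if ω ∩ K = ∅ then 1 else 0) *
      (fun ω₁ => (∏ y ∈ O, (1 - pg f φ y)) *
        EB A (pg f φ) (fun D => if reach A ω₁ (R ∪ D) = A then (1 : ℝ) else 0)) (ω ∩ (A ×ˢ A))) := by
    unfold PA
    apply EB_congr
    intro ω hω
    rw [EB_congr (hev ω hω), EB_const_mul]
    congr 1
    exact EB_indep hA hOS hAO (pg f φ)
      (fun D => if reach A (ω ∩ (A ×ˢ A)) (R ∪ D) = A then (1 : ℝ) else 0)
  have step2 := EB_indep hAA hKS hdAK (pe J φ) (fun ω₁ => (∏ y ∈ O, (1 - pg f φ y)) *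
        EB A (pg f φ) (fun D => if reach A ω₁ (R ∪ D) = A then (1 : ℝ) else 0))
  rw [step1, step2, EB_const_mul]
  have e1 : ∏ e ∈ K, (1 - pe J φ e)
      = Real.exp (-∑ x ∈ A, ∑ y ∈ O, 2 * (J x y * max 0 (φ x * φ y))) := by
    have e2 : ∀ e : W × W, 1 - pe J φ e = Real.exp (-(J e.1 e.2 * max 0 (φ e.1 * φ e.2))) := by
      intro e
      unfold pe
      ring
    rw [Finset.prod_congr rfl (fun e _ => e2 e), ← Real.exp_sum, Finset.sum_union hdK,
      Finset.sum_product, Finset.sum_product_right, ← Finset.sum_add_distrib]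
    congr 1
    rw [← Finset.sum_neg_distrib]
    apply Finset.sum_congr rfl
    intro x _
    rw [← Finset.sum_add_distrib, ← Finset.sum_neg_distrib]
    apply Finset.sum_congr rfl
    intro y _
    rw [Js y x, mul_comm (φ y) (φ x)]
    ring
  have e3 : ∏ y ∈ O, (1 - pg f φ y) = Real.exp (-∑ y ∈ O, 2 * f y * max 0 (φ y)) := by
    have e4 : ∀ y : W, 1 - pg f φ y = Real.exp (-(2 * f y * max 0 (φ y))) := by
      intro y
      unfold pg
      ring
    rw [Finset.prod_congr rfl (fun e _ => e4 e), ← Real.exp_sum, Finset.sum_neg_distrib]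
  rw [e1, e3]
  unfold kin
  ring

end Pool.Agent.LR
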