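import Pool.Agent.LR.B6.Adm

/-!
# LR-B6 module Point: the pointwise exploration identity
-/

set_option autoImplicit false
set_option linter.unusedSectionVars false

noncomputable section

open scoped BigOperators

namespace Pool.Agent.LR

variable {W : Type*} [DecidableEq W]
variable {J : W → W → ℝ} {N : BF W} {S R T A : Finset W} {f g h l φ : W → ℝ}

theorem emb_glue (hA : A ⊆ S) (ψA : A → ℤ) (ψO : (S \ A : Finset W) → ℤ) :
    emb S (glue S A ψA ψO) = emb A ψA + emb (S \ A) ψO := by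
  funext x
  rw [Pi.add_apply]
  by_cases hx : x ∈ A
  · rw [emb_apply_mem (hA hx), emb_apply_mem hx,
      emb_apply_not (fun h => (Finset.mem_sdiff.1 h).2 hx), add_zero]
    unfold glue
    rw [dif_pos hx]
  · by_cases hxS : x ∈ S
    · rw [emb_apply_mem hxS, emb_apply_not hx, emb_apply_mem (Finset.mem_sdiff.2 ⟨hxS, hx⟩),
        zero_add]
      unfold glue
      rw [dif_neg hx]
    · rw [emb_apply_not hxS, emb_apply_not hx,
        emb_apply_not (fun h => hxS (Finset.mem_sdiff.1 h).1), add_zero]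

/-- gluing as an equivalence -/
def glueEquiv (hA : A ⊆ S) : (A → ℤ) × ((S \ A : Finset W) → ℤ) ≃ (S → ℤ) where
  toFun p := glue S A p.1 p.2
  invFun ψ := (fun a => ψ ⟨a.1, hA a.2⟩, fun o => ψ ⟨o.1, (Finset.mem_sdiff.1 o.2).1⟩)
  left_inv := by
    rintro ⟨ψA, ψO⟩
    refine Prod.ext ?_ ?_
    · funext a
      unfold glue
      simp only
      rw [dif_pos a.2]
    · funext o
      unfold glue
      simp only
      rw [dif_neg (Finset.mem_sdiff.1 o.2).2]
  right_inv := by
    intro ψ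
    funext x
    unfold glue
    simp only
    split_ifs <;> rfl

theorem Qfr_cross (Js : ∀ x y, J x y = J y x) (hA : A ⊆ S) {φA φO : W → ℝ} (h1 : Supp A φA)
    (h2 : Supp (S \ A) φO) :
    Qfr J S φA φO = -∑ x ∈ A, ∑ y ∈ S \ A, J x y * (φA x * φO y) := by
  have h0 : ∀ x, φA x * φO x = 0 := by
    intro x
    by_cases hx : x ∈ A
    · rw [h2 x (fun h => (Finset.mem_sdiff.1 h).2 hx), mul_zero]
    · rw [h1 x hx, zero_mul]
  rw [Qfr_apply']
  have e1 : ∀ x ∈ S, ∑ y ∈ S, J x y / 2 * (φA x - φA y) * (φO x - φO y) =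
      -(∑ y ∈ S, J x y / 2 * (φA x * φO y)) - ∑ y ∈ S, J x y / 2 * (φA y * φO x) := by
    intro x _
    rw [← Finset.sum_neg_distrib, ← Finset.sum_sub_distrib]
    apply Finset.sum_congr rfl
    intro y _
    linear_combination (J x y / 2) * h0 x + (J x y / 2) * h0 y
  rw [Finset.sum_congr rfl e1, Finset.sum_sub_distrib, Finset.sum_neg_distrib]
  have e2 : ∑ x ∈ S, ∑ y ∈ S, J x y / 2 * (φA y * φO x) =
      ∑ x ∈ S, ∑ y ∈ S, J x y / 2 * (φA x * φO y) := by
    rw [Finset.sum_comm]
    apply Finset.sum_congr rfl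
    intro x _
    apply Finset.sum_congr rfl
    intro y _
    rw [Js y x]
  rw [e2]
  have e3 : ∑ x ∈ S, ∑ y ∈ S, J x y / 2 * (φA x * φO y) =
      ∑ x ∈ A, ∑ y ∈ S \ A, J x y / 2 * (φA x * φO y) := by
    symm
    rw [Finset.sum_subset hA]
    · apply Finset.sum_congr rfl
      intro x _
      apply Finset.sum_subset Finset.sdiff_subset
      intro y _ hy
      rw [h2 y hy, mul_zero, mul_zero]
    · intro x _ hx
      apply Finset.sum_eq_zero
      intro y _
      rw [h1 x hx, zero_mul, mul_zero]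
  rw [e3]
  have e4 : ∑ x ∈ A, ∑ y ∈ S \ A, J x y * (φA x * φO y) =
      2 * ∑ x ∈ A, ∑ y ∈ S \ A, J x y / 2 * (φA x * φO y) := by
    rw [Finset.mul_sum]
    apply Finset.sum_congr rfl
    intro x _
    rw [Finset.mul_sum]
    apply Finset.sum_congr rfl
    intro y _
    ring
  rw [e4]
  ring

theorem fb_cross (N : BF W) (φA : W → ℝ) {O : Finset W} {φO : W → ℝ} (h2 : Supp O φO) :
    N φA φO = -pr O (fb N φA) φO := by
  conv_lhs => rw [eq_sum_of_supp h2]
  rw [map_sum]
  unfold pr fb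
  rw [← Finset.sum_neg_distrib]
  apply Finset.sum_congr rfl
  intro y _
  rw [map_smul, smul_eq_mul]
  ring

theorem pr_split (hA : A ⊆ S) (f : W → ℝ) {φA φO : W → ℝ} (h1 : Supp A φA)
    (h2 : Supp (S \ A) φO) : pr S f (φA + φO) = pr A f φA + pr (S \ A) f φO := by
  rw [pr_add_right]
  congr 1
  · unfold pr
    symm
    apply Finset.sum_subset hA
    intro x _ hx
    rw [h1 x hx, mul_zero]
  · unfold pr
    symm
    apply Finset.sum_subset Finset.sdiff_subset
    intro x _ hx
    rw [h2 x hx, mul_zero]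

/-- The pointwise identity. -/
theorem point (hM : Mod J N S) (hA : A ⊆ S) (hR : R ⊆ A) (ψA : A → ℤ)
    (ψO : (S \ A : Finset W) → ℤ) :
    wt (MM J N S) S 0 (glue S A ψA ψO) * Real.exp (pr S (f + g) (emb S (glue S A ψA ψO))) *
        PA J S R f (emb S (glue S A ψA ψO)) A =
      KA J (MM J N S) R f A (emb A ψA) * Real.exp (pr A g (emb A ψA)) *
        (wt (MM J N S) (S \ A) 0 ψO *
          Real.exp (pr (S \ A) (g + fb N (emb A ψA)) (emb (S \ A) ψO)) *
          Frest (S \ A) (bb J A f (emb A ψA)) ψO) := by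
  rw [PA_eq hM.Js hA hR, emb_glue hA]
  set φA := emb A ψA with hφA
  set φO := emb (S \ A) ψO with hφO
  have s1 : Supp A φA := supp_emb ψA
  have s2 : Supp (S \ A) φO := supp_emb ψO
  have k1 : kin J A R f (φA + φO) = kin J A R f φA := by
    apply kin_congr
    intro x hx
    rw [Pi.add_apply, s2 x (fun h => (Finset.mem_sdiff.1 h).2 hx), add_zero]
  rw [k1]
  unfold wt KA Frest
  rw [emb_glue hA, ← hφA, ← hφO, sub_zero, sub_zero]
  have m1 : (MM J N S) (φA + φO) (φA + φO) = (MM J N S) φA φA + (MM J N S) φO φO +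
      2 * (MM J N S) φA φO := by
    have := hM.form.add_sq φA φO
    linarith
  have m2 : (MM J N S) φA φO = -(∑ x ∈ A, ∑ y ∈ S \ A, J x y * (φA x * φO y)) -
      pr (S \ A) (fb N φA) φO := by
    show (Qfr J S + N) φA φO = _
    rw [LinearMap.add_apply, LinearMap.add_apply, Qfr_cross hM.Js hA s1 s2, fb_cross N φA s2]
    ring
  have p1 : pr S (f + g) (φA + φO) = pr A f φA + pr A g φA + pr (S \ A) f φO +
      pr (S \ A) g φO := by
    rw [pr_split hA _ s1 s2, pr_add_left, pr_add_left]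
    ring
  have c1 : ∑ x ∈ A, ∑ y ∈ S \ A, 2 * (J x y * max 0 ((φA + φO) x * (φA + φO) y)) =
      ∑ x ∈ A, ∑ y ∈ S \ A, J x y * (φA x * φO y) +
        ∑ y ∈ S \ A, (∑ x ∈ A, J x y * |φA x|) * |φO y| := by
    have c2 : ∑ y ∈ S \ A, (∑ x ∈ A, J x y * |φA x|) * |φO y| =
        ∑ x ∈ A, ∑ y ∈ S \ A, J x y * |φA x| * |φO y| := by
      rw [Finset.sum_comm]
      apply Finset.sum_congr rfl
      intro y _
      rw [Finset.sum_mul]
    rw [c2, ← Finset.sum_add_distrib]
    apply Finset.sum_congr rfl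
    intro x hx
    rw [← Finset.sum_add_distrib]
    apply Finset.sum_congr rfl
    intro y hy
    have d1 : (φA + φO) x = φA x := by
      rw [Pi.add_apply, s2 x (fun h => (Finset.mem_sdiff.1 h).2 hx), add_zero]
    have d2 : (φA + φO) y = φO y := by
      rw [Pi.add_apply, s1 y (Finset.mem_sdiff.1 hy).2, zero_add]
    rw [d1, d2]
    have d3 : 2 * max 0 (φA x * φO y) = φA x * φO y + |φA x| * |φO y| := by
      rw [← abs_mul]
      rcases le_total 0 (φA x * φO y) with h | h
      · rw [max_eq_right h, abs_of_nonneg h]; ring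
      · rw [max_eq_left h, abs_of_nonpos h]; ring
    linear_combination (J x y) * d3
  have c3 : ∑ y ∈ S \ A, 2 * f y * max 0 ((φA + φO) y) =
      pr (S \ A) f φO + ∑ y ∈ S \ A, f y * |φO y| := by
    unfold pr
    rw [← Finset.sum_add_distrib]
    apply Finset.sum_congr rfl
    intro y hy
    have d2 : (φA + φO) y = φO y := by
      rw [Pi.add_apply, s1 y (Finset.mem_sdiff.1 hy).2, zero_add]
    rw [d2]
    rcases le_total 0 (φO y) with h | h
    · rw [max_eq_right h, abs_of_nonneg h]; ring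
    · rw [max_eq_left h, abs_of_nonpos h]; ring
  have c4 : ∑ y ∈ S \ A, bb J A f φA y * |φO y| =
      ∑ y ∈ S \ A, f y * |φO y| + ∑ y ∈ S \ A, (∑ x ∈ A, J x y * |φA x|) * |φO y| := by
    unfold bb
    rw [← Finset.sum_add_distrib]
    apply Finset.sum_congr rfl
    intro y _
    ring
  rw [m1, m2, p1, c1, c3, c4, pr_add_left]
  generalize kin J A R f φA = K
  generalize (MM J N S) φA φA = a1
  generalize (MM J N S) φO φO = a2
  generalize ∑ x ∈ A, ∑ y ∈ S \ A, J x y * (φA x * φO y) = a3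
  generalize pr (S \ A) (fb N φA) φO = a4
  generalize pr A f φA = a5
  generalize pr A g φA = a6
  generalize pr (S \ A) f φO = a7
  generalize pr (S \ A) g φO = a8
  generalize ∑ y ∈ S \ A, (∑ x ∈ A, J x y * |φA x|) * |φO y| = a9
  generalize ∑ y ∈ S \ A, f y * |φO y| = a10
  have key : Real.exp (-(1 / 2) * (a1 + a2 + 2 * (-a3 - a4))) * Real.exp (a5 + a6 + a7 + a8) *
      (Real.exp (-(a3 + a9)) * Real.exp (-(a7 + a10))) =
      Real.exp (-(1 / 2) * a1) * Real.exp a5 * Real.exp a6 *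
        (Real.exp (-(1 / 2) * a2) * Real.exp (a8 + a4) * Real.exp (-(a10 + a9))) := by
    simp only [← Real.exp_add]
    congr 1
    ring
  linear_combination K * key

end Pool.Agent.LR
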