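import Pool.Agent.LR.B6.Sum
import Pool.Agent.LR.B1.Rest

/-!
# LR-B6 module Ratio: the ratio formula, the Laplace bound and the conditional mean
-/

set_option autoImplicit false
set_option linter.unusedSectionVars false

noncomputable section

open scoped BigOperators

namespace Pool.Agent.LR

variable {W : Type*} [DecidableEq W]
variable {J : W → W → ℝ} {N : BF W} {S R T A : Finset W} {f g h l φ : W → ℝ}

/-- evaluation of the integer field at a site, as a homomorphism -/
def evH (O : Finset W) (y : W) : (O → ℤ) →+ ℝ where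
  toFun ψ := emb O ψ y
  map_zero' := by rw [emb_zero]; rfl
  map_add' ψ χ := by rw [emb_add]; rfl

theorem pd_Frest {O : Finset W} {b : W → ℝ} (hb : ∀ y ∈ O, 0 ≤ b y) : PD (Frest O b) := by
  have h1 : Frest O b = fun ψ => ∏ y ∈ O, Real.exp (-(b y * |emb O ψ y|)) := by
    funext ψ
    unfold Frest
    rw [← Real.exp_sum, Finset.sum_neg_distrib]
  rw [h1]
  apply PD.prod
  intro y hy
  exact pd_abs (evH O y) (hb y hy)

theorem Frest_pos {O : Finset W} {b : W → ℝ} (ψ : O → ℤ) : 0 < Frest O b ψ := Real.exp_pos _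

theorem bb_nonneg (J0 : ∀ x y, 0 ≤ J x y) (f0 : ∀ x ∈ S, 0 ≤ f x) (φA : W → ℝ) :
    ∀ y ∈ S \ A, 0 ≤ bb J A f φA y := by
  intro y hy
  unfold bb
  exact add_nonneg (f0 y (Finset.mem_sdiff.1 hy).1)
    (Finset.sum_nonneg (fun x _ => mul_nonneg (J0 x y) (abs_nonneg _)))

theorem pd_rest (hM : Mod J N S) (f0 : ∀ x ∈ S, 0 ≤ f x) (φA : W → ℝ) :
    PD (Frest (S \ A) (bb J A f φA)) := pd_Frest (bb_nonneg hM.J0 f0 φA)

/-- functions of the explored part are constant in the rest sum -/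
theorem SuR_fst (M : BF W) {φA : W → ℝ} (hφ : Supp A φA) (F : (W → ℝ) → ℝ) :
    SuR J M N S f g A φA (fun φ => F (restr A φ)) = F φA * SuR J M N S f g A φA (fun _ => 1) := by
  have h1 : ∀ ψO : (S \ A : Finset W) → ℤ, restr A (φA + emb (S \ A) ψO) = φA := by
    intro ψO
    funext x
    unfold restr
    split_ifs with hx
    · rw [Pi.add_apply, emb_apply_not (fun h => (Finset.mem_sdiff.1 h).2 hx), add_zero]
    · exact (hφ x hx).symm
  unfold SuR
  simp only [h1]
  rw [← Su_const_mul']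
  congr 1
  funext ψ
  ring

theorem SuR_nonneg (M : BF W) (φA : W → ℝ) : 0 ≤ SuR J M N S f g A φA (fun _ => 1) := by
  unfold SuR Su
  apply tsum_nonneg
  intro ψ
  exact mul_nonneg (mul_nonneg (Real.exp_pos _).le (Real.exp_pos _).le)
    (mul_nonneg (Frest_pos ψ).le zero_le_one)

theorem SuR_one (M : BF W) (φA : W → ℝ) : SuR J M N S f g A φA (fun _ => 1) =
    Su M (S \ A) (g + fb N φA) (Frest (S \ A) (bb J A f φA)) := by
  unfold SuR
  simp only [mul_one]

theorem exp_La' (hM : Mod J N S) (f : W → ℝ) :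
    Real.exp (La (MM J N S) S f) = Su (MM J N S) S f (fun _ => 1) / Th (MM J N S) S 0 := by
  have h0 : Ex (MM J N S) S 0 (fun ψ => Real.exp (pr S f (emb S ψ))) =
      Su (MM J N S) S f (fun _ => 1) / Th (MM J N S) S 0 := by
    unfold Ex Su
    simp only [mul_one]
  unfold La
  rw [h0, Real.exp_log]
  exact div_pos (SuM_one_pos hM f) (Th_pos hM.form hM.pd 0)

theorem Su_one_div (hM : Mod J N S) (f h : W → ℝ) :
    Su (MM J N S) S f (fun _ => 1) / Su (MM J N S) S h (fun _ => 1) =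
      Real.exp (La (MM J N S) S f - La (MM J N S) S h) := by
  rw [Real.exp_sub, exp_La' hM, exp_La' hM]
  have h1 := SuM_one_pos hM h
  have h2 := Th_pos hM.form hM.pd 0
  field_simp

theorem adm_ind (P : (W → ℝ) → Prop) [DecidablePred P] :
    Adm S (fun φ => if P φ then (1 : ℝ) else 0) :=
  Adm.of_bdd (C := 1) (fun φ => by split_ifs <;> simp)

open Classical in
theorem SuA_ratio (hM : Mod J N S) (hR : R ⊆ S) (f0 : ∀ x ∈ S, 0 ≤ f x)
    (P : Finset W → (W → ℝ) → Prop) (B : ℝ)
    (hP : ∀ A, A ⊆ S → R ⊆ A → ∀ ψA : A → ℤ, P A (emb A ψA) →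
      pr A g (emb A ψA) + 1 / 2 * nsq (MM J N S) (S \ A) (g + fb N (emb A ψA)) ≤ B) :
    SuA J (MM J N S) S R f (f + g) (fun A φ => if P A (restr A φ) then 1 else 0) ≤
      Real.exp B * SuA J (MM J N S) S R f f (fun A φ => if P A (restr A φ) then 1 else 0) := by
  have h1 : Real.exp B * SuA J (MM J N S) S R f f (fun A φ => if P A (restr A φ) then 1 else 0) =
      SuA J (MM J N S) S R f (f + 0)
        (fun A φ => Real.exp B * (if P A (restr A φ) then 1 else 0)) := by
    rw [add_zero]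
    unfold SuA
    rw [← Su_const_mul']
    congr 1
    funext ψ
    rw [Finset.mul_sum]
    apply Finset.sum_congr rfl
    intro A _
    ring
  rw [h1]
  apply SuA_comp hM hR f0
  · intro A _
    exact adm_ind (fun φ => P A (restr A φ))
  · intro A _
    exact (adm_ind (fun φ => P A (restr A φ))).smul _
  · intro A hA hRA ψA
    rw [SuR_fst (F := fun φ => if P A φ then (1 : ℝ) else 0) _ (supp_emb ψA),
      SuR_fst (F := fun φ => Real.exp B * (if P A φ then (1 : ℝ) else 0)) _ (supp_emb ψA)]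
    rw [pr_zero_left, Real.exp_zero, one_mul]
    by_cases h : P A (emb A ψA)
    · rw [if_pos h, one_mul, mul_one, SuR_one, SuR_one, zero_add]
      have h2 := Su_tilt_le hM.form (hM.pdO A) g (fb N (emb A ψA)) (pd_rest hM f0 (emb A ψA))
        (fun ψ => (Frest_pos ψ).le)
      have h3 : Real.exp (pr A g (emb A ψA)) *
          Real.exp (nsq (MM J N S) (S \ A) (g + fb N (emb A ψA)) / 2) ≤ Real.exp B := by
        rw [← Real.exp_add, Real.exp_le_exp]
        have := hP A hA hRA ψA h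
        linarith
      have h4 : 0 ≤ Su (MM J N S) (S \ A) (fb N (emb A ψA))
          (Frest (S \ A) (bb J A f (emb A ψA))) :=
        (Su_pos hM.form (hM.pdO A) _ (pd_rest hM f0 (emb A ψA)) (fun ψ => Frest_pos ψ)).le
      calc Real.exp (pr A g (emb A ψA)) * Su (MM J N S) (S \ A) (g + fb N (emb A ψA))
            (Frest (S \ A) (bb J A f (emb A ψA)))
          ≤ Real.exp (pr A g (emb A ψA)) *
            (Real.exp (nsq (MM J N S) (S \ A) (g + fb N (emb A ψA)) / 2) *
              Su (MM J N S) (S \ A) (fb N (emb A ψA)) (Frest (S \ A) (bb J A f (emb A ψA)))) :=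
            mul_le_mul_of_nonneg_left h2 (Real.exp_pos _).le
        _ = (Real.exp (pr A g (emb A ψA)) *
            Real.exp (nsq (MM J N S) (S \ A) (g + fb N (emb A ψA)) / 2)) *
              Su (MM J N S) (S \ A) (fb N (emb A ψA)) (Frest (S \ A) (bb J A f (emb A ψA))) := by
            ring
        _ ≤ _ := mul_le_mul_of_nonneg_right h3 h4
    · rw [if_neg h]
      simp

open Classical in
/-- RATIO FORMULA (7.2): `P(A, φA)` = any event depending on the explored part. Used in 7.9 (2), (5).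
`½ nsq (g + f_a)` is `½ ||g + f_a||_O²`. -/
theorem expl_ratio (hM : Mod J N S) (hR : R ⊆ S) (f0 : ∀ x ∈ S, 0 ≤ f x)
    (P : Finset W → (W → ℝ) → Prop) (B : ℝ)
    (hP : ∀ A, A ⊆ S → R ⊆ A → ∀ ψA : A → ℤ, P A (emb A ψA) →
      pr A g (emb A ψA) + 1 / 2 * nsq (MM J N S) (S \ A) (g + fb N (emb A ψA)) ≤ B) :
    EtA J (MM J N S) S R f (f + g) (fun A φ => if P A (restr A φ) then 1 else 0) ≤
      Real.exp (B + La (MM J N S) S f - La (MM J N S) S (f + g)) := by
  have h1 := SuA_ratio hM hR f0 P B hP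
  have h2 : EtA J (MM J N S) S R f f (fun A φ => if P A (restr A φ) then 1 else 0) ≤ 1 := by
    refine (EtA_mono (Υ := fun _ _ => 1) hM f0 ?_ ?_ ?_).trans (EtA_one hM).le
    · intro A _
      exact adm_ind (fun φ => P A (restr A φ))
    · intro A _
      exact Adm.const 1
    · intro A _ ψ _
      split_ifs <;> norm_num
  have h3 : SuA J (MM J N S) S R f f (fun A φ => if P A (restr A φ) then 1 else 0) ≤
      Su (MM J N S) S f (fun _ => 1) := by
    unfold EtA at h2
    rwa [div_le_one (SuM_one_pos hM f)] at h2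
  have h4 : SuA J (MM J N S) S R f (f + g) (fun A φ => if P A (restr A φ) then 1 else 0) ≤
      Real.exp B * Su (MM J N S) S f (fun _ => 1) :=
    h1.trans (mul_le_mul_of_nonneg_left h3 (Real.exp_pos _).le)
  unfold EtA
  rw [div_le_iff₀ (SuM_one_pos hM (f + g))]
  refine h4.trans (le_of_eq ?_)
  have h5 := Su_one_div hM f (f + g)
  rw [div_eq_iff (SuM_one_pos hM (f + g)).ne'] at h5
  rw [h5]
  rw [show B + La (MM J N S) S f - La (MM J N S) S (f + g) =
    B + (La (MM J N S) S f - La (MM J N S) S (f + g)) by ring, Real.exp_add]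
  ring

theorem SuA_tilt (M : BF W) (Ξ : Finset W → (W → ℝ) → ℝ) :
    SuA J M S R f h (fun A φ => Ξ A φ * Real.exp (pr S g φ)) = SuA J M S R f (h + g) Ξ := by
  unfold SuA Su
  apply tsum_congr
  intro ψ
  rw [pr_add_left, Real.exp_add]
  have : ∑ A ∈ S.powerset, PA J S R f (emb S ψ) A * (Ξ A (emb S ψ) * Real.exp (pr S g (emb S ψ))) =
      (∑ A ∈ S.powerset, PA J S R f (emb S ψ) A * Ξ A (emb S ψ)) *
        Real.exp (pr S g (emb S ψ)) := by
    rw [Finset.sum_mul]
    apply Finset.sum_congr rfl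
    intro A _
    ring
  beta_reduce
  rw [this]
  ring

theorem pr_restr (A : Finset W) (g φ : W → ℝ) : pr A g (restr A φ) = pr A g φ := by
  unfold pr
  apply Finset.sum_congr rfl
  intro x hx
  unfold restr
  rw [if_pos hx]

open Classical in
/-- Laplace bound on an event of the explored part (7.2, used in 8.1 with `f = 0`):
`E_f[e^{⟨g,ψ⟩}; P] ≤ E_f[e^{b(A,φA)} e^{⟨g,φA⟩}; P]` if the rest law satisfies the bound `b`. -/
theorem expl_laplace (hM : Mod J N S) (hR : R ⊆ S) (f0 : ∀ x ∈ S, 0 ≤ f x)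
    (P : Finset W → (W → ℝ) → Prop) (B : ℝ)
    (hP : ∀ A, A ⊆ S → R ⊆ A → ∀ ψA : A → ℤ, P A (emb A ψA) →
      SuR J (MM J N S) N S f g A (emb A ψA) (fun _ => 1) ≤
        Real.exp B * SuR J (MM J N S) N S f 0 A (emb A ψA) (fun _ => 1)) :
    EtA J (MM J N S) S R f f (fun A φ => (if P A (restr A φ) then 1 else 0) * Real.exp (pr S g φ)) ≤
      Real.exp B * EtA J (MM J N S) S R f f
        (fun A φ => (if P A (restr A φ) then 1 else 0) * Real.exp (pr A g φ)) := by
  unfold EtA
  rw [← mul_div_assoc]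
  apply div_le_div_of_nonneg_right _ (SuM_one_pos hM f).le
  rw [SuA_tilt]
  have h1 : Real.exp B * SuA J (MM J N S) S R f f
      (fun A φ => (if P A (restr A φ) then 1 else 0) * Real.exp (pr A g φ)) =
      SuA J (MM J N S) S R f (f + 0)
        (fun A φ => Real.exp B * ((if P A (restr A φ) then 1 else 0) * Real.exp (pr A g φ))) := by
    rw [add_zero]
    unfold SuA
    rw [← Su_const_mul']
    congr 1
    funext ψ
    rw [Finset.mul_sum]
    apply Finset.sum_congr rfl
    intro A _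
    ring
  rw [h1]
  apply SuA_comp hM hR f0
  · intro A _
    exact adm_ind (fun φ => P A (restr A φ))
  · intro A _
    exact ((adm_ind (fun φ => P A (restr A φ))).mul (Adm.exp_prA A g)).smul _
  · intro A hA hRA ψA
    have h2 : (fun φ : W → ℝ => Real.exp B * ((if P A (restr A φ) then (1 : ℝ) else 0) *
        Real.exp (pr A g φ))) = (fun φ => (fun φ' => Real.exp B *
          ((if P A φ' then (1 : ℝ) else 0) * Real.exp (pr A g φ'))) (restr A φ)) := by
      funext φ
      simp only [pr_restr]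
    rw [h2, SuR_fst (F := fun φ' => Real.exp B *
          ((if P A φ' then (1 : ℝ) else 0) * Real.exp (pr A g φ'))) _ (supp_emb ψA),
      SuR_fst (F := fun φ => if P A φ then (1 : ℝ) else 0) _ (supp_emb ψA)]
    rw [pr_zero_left, Real.exp_zero, one_mul]
    by_cases h : P A (emb A ψA)
    · rw [if_pos h, one_mul, one_mul]
      have h3 := mul_le_mul_of_nonneg_left (hP A hA hRA ψA h) (Real.exp_pos (pr A g (emb A ψA))).le
      linarith
    · rw [if_neg h]
      simp

/-- Rest law: Laplace functional of `g` relative to the tilt `f_a` (Hölder, `1/p + 1/q = 1`);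
`Lap_μ(g + f_a) ≤ Lap_{M,Z^O}(p g)^{1/p} exp (q ||f_a||²/2) Lap_μ(f_a)`. -/
theorem SuR_holder (hM : Mod J N S) (f0 : ∀ x ∈ S, 0 ≤ f x) (φA : W → ℝ) (p q : ℝ)
    (hpq : p.HolderConjugate q) :
    SuR J (MM J N S) N S f g A φA (fun _ => 1) ≤
      Real.exp (La (MM J N S) (S \ A) (p • g) / p + q / 2 * nsq (MM J N S) (S \ A) (fb N φA)) *
        SuR J (MM J N S) N S f 0 A φA (fun _ => 1) := by
  rw [SuR_one, SuR_one, zero_add]
  have hPD := pd_rest (A := A) hM f0 φA
  have hpos : ∀ ψ : (S \ A : Finset W) → ℤ, 0 < Frest (S \ A) (bb J A f φA) ψ :=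
    fun ψ => Frest_pos ψ
  have h1 := Su_holder hM.form (hM.pdO A) g (fb N φA) hPD.tame (fun ψ => (hpos ψ).le) hpq
  have h2 := Su_le_La hM.form (hM.pdO A) (p • g) hPD
  have h3 := Su_le hM.form (hM.pdO A) (q • fb N φA) hPD
  have h4 := Su_zero_le hM.form (hM.pdO A) (fb N φA) hPD (fun ψ => (hpos ψ).le)
  have z0 := Su_pos hM.form (hM.pdO A) 0 hPD hpos
  have z1 := Su_pos hM.form (hM.pdO A) (p • g) hPD hpos
  have z2 := Su_pos hM.form (hM.pdO A) (q • fb N φA) hPD hpos
  set s0 := Su (MM J N S) (S \ A) 0 (Frest (S \ A) (bb J A f φA)) with hs0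
  have hp := hpq.pos
  have hq := hpq.symm.pos
  have hsum : 1 / p + 1 / q = 1 := by
    have := hpq.inv_add_inv_eq_one
    rw [one_div, one_div]
    exact this
  have k1 : Su (MM J N S) (S \ A) (p • g) (Frest (S \ A) (bb J A f φA)) ^ (1 / p) ≤
      (Real.exp (La (MM J N S) (S \ A) (p • g)) * s0) ^ (1 / p) :=
    Real.rpow_le_rpow z1.le h2 (by positivity)
  have k2 : Su (MM J N S) (S \ A) (q • fb N φA) (Frest (S \ A) (bb J A f φA)) ^ (1 / q) ≤
      (Real.exp (nsq (MM J N S) (S \ A) (q • fb N φA) / 2) * s0) ^ (1 / q) :=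
    Real.rpow_le_rpow z2.le h3 (by positivity)
  have k3 : (Real.exp (La (MM J N S) (S \ A) (p • g)) * s0) ^ (1 / p) =
      Real.exp (La (MM J N S) (S \ A) (p • g) / p) * s0 ^ (1 / p) := by
    rw [Real.mul_rpow (Real.exp_pos _).le z0.le, ← Real.exp_mul]
    congr 2
    ring
  have k4 : (Real.exp (nsq (MM J N S) (S \ A) (q • fb N φA) / 2) * s0) ^ (1 / q) =
      Real.exp (q / 2 * nsq (MM J N S) (S \ A) (fb N φA)) * s0 ^ (1 / q) := by
    rw [Real.mul_rpow (Real.exp_pos _).le z0.le, ← Real.exp_mul, nsq_smul hM.form (hM.pdO A)]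
    congr 2
    field_simp
  have k5 : s0 ^ (1 / p) * s0 ^ (1 / q) = s0 := by
    rw [← Real.rpow_add z0, hsum, Real.rpow_one]
  calc Su (MM J N S) (S \ A) (g + fb N φA) (Frest (S \ A) (bb J A f φA))
      ≤ (Real.exp (La (MM J N S) (S \ A) (p • g)) * s0) ^ (1 / p) *
        (Real.exp (nsq (MM J N S) (S \ A) (q • fb N φA) / 2) * s0) ^ (1 / q) :=
        h1.trans (mul_le_mul k1 k2 (Real.rpow_nonneg z2.le _) (Real.rpow_nonneg
          (mul_nonneg (Real.exp_pos _).le z0.le) _))
    _ = Real.exp (La (MM J N S) (S \ A) (p • g) / p +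
          q / 2 * nsq (MM J N S) (S \ A) (fb N φA)) * (s0 ^ (1 / p) * s0 ^ (1 / q)) := by
        rw [k3, k4, Real.exp_add]
        ring
    _ = Real.exp (La (MM J N S) (S \ A) (p • g) / p +
          q / 2 * nsq (MM J N S) (S \ A) (fb N φA)) * s0 := by rw [k5]
    _ ≤ _ := mul_le_mul_of_nonneg_left h4 (Real.exp_pos _).le

/-- the feedback tilt alone against any tilt -/
theorem SuR_zero_le (hM : Mod J N S) (f0 : ∀ x ∈ S, 0 ≤ f x) (φA g : W → ℝ) :
    SuR J (MM J N S) N S f 0 A φA (fun _ => 1) ≤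
      Real.exp (nsq (MM J N S) (S \ A) (fb N φA) / 2) *
        SuR J (MM J N S) N S f g A φA (fun _ => 1) := by
  rw [SuR_one, SuR_one, zero_add]
  have hPD := pd_rest (A := A) hM f0 φA
  have h1 := Su_le hM.form (hM.pdO A) (fb N φA) hPD
  have h2 := Su_zero_le hM.form (hM.pdO A) (g + fb N φA) hPD (fun ψ => (Frest_pos ψ).le)
  exact h1.trans (mul_le_mul_of_nonneg_left h2 (Real.exp_pos _).le)

/-- one sided version of the conditional mean bound -/
theorem SuA_mean (hM : Mod J N S) (hR : R ⊆ S) (f0 : ∀ x ∈ S, 0 ≤ f x)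
    (a : Finset W → (W → ℝ) → ℝ) (ha : ∀ A φ, 0 ≤ a A φ)
    (l : Finset W → (W → ℝ) → W → ℝ)
    (hadm : ∀ A, A ⊆ S → Adm S (fun φ => a A (restr A φ)))
    (hadl : ∀ A, A ⊆ S → ∀ x, Adm S (fun φ => l A (restr A φ) x)) (s : ℝ) (hs : |s| = 1) :
    SuA J (MM J N S) S R f (f + g)
        (fun A φ => s * (a A (restr A φ) * pr (S \ A) (l A (restr A φ)) φ)) ≤
      SuA J (MM J N S) S R f (f + g) (fun A φ => a A (restr A φ) *
        (2 * Real.sqrt (nsq (MM J N S) (S \ A) (g + fb N (restr A φ))) *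
          Real.sqrt (nsq (MM J N S) (S \ A) (l A (restr A φ))))) := by
  have had1 : ∀ A, A ⊆ S → Adm S (fun φ => s * (a A (restr A φ) *
      pr (S \ A) (l A (restr A φ)) φ)) := by
    intro A hA
    refine ((hadm A hA).mul ?_).smul s
    unfold pr
    exact Adm.sum (S \ A) (fun x _ => (hadl A hA x).mul (Adm.apply x))
  have had2 : ∀ A, A ⊆ S → Adm S (fun φ => a A (restr A φ) *
        (2 * Real.sqrt (nsq (MM J N S) (S \ A) (g + fb N (restr A φ))) *
          Real.sqrt (nsq (MM J N S) (S \ A) (l A (restr A φ))))) := by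
    intro A hA
    refine (hadm A hA).mul (((Adm.nsqA hM A g).sqrt.smul 2).mul ?_)
    exact Adm.sqrt_nsq hM.form (hM.pdO A) (hadl A hA)
  apply SuA_comp hM hR f0 had1 had2
  intro A hA hRA ψA
  apply mul_le_mul_of_nonneg_left _ (Real.exp_pos _).le
  rw [SuR_fst (F := fun φ => a A φ * (2 * Real.sqrt (nsq (MM J N S) (S \ A) (g + fb N φ)) *
    Real.sqrt (nsq (MM J N S) (S \ A) (l A φ)))) _ (supp_emb ψA)]
  have h1 : ∀ ψO : (S \ A : Finset W) → ℤ, restr A (emb A ψA + emb (S \ A) ψO) = emb A ψA := by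
    intro ψO
    funext x
    unfold restr
    split_ifs with hx
    · rw [Pi.add_apply, emb_apply_not (fun h => (Finset.mem_sdiff.1 h).2 hx), add_zero]
    · exact (supp_emb ψA x hx).symm
  have h2 : ∀ ψO : (S \ A : Finset W) → ℤ, ∀ l' : W → ℝ,
      pr (S \ A) l' (emb A ψA + emb (S \ A) ψO) = pr (S \ A) l' (emb (S \ A) ψO) := by
    intro ψO l'
    unfold pr
    apply Finset.sum_congr rfl
    intro x hx
    rw [Pi.add_apply, emb_apply_not (Finset.mem_sdiff.1 hx).2, zero_add]
  have h3 : SuR J (MM J N S) N S f g A (emb A ψA)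
      (fun φ => s * (a A (restr A φ) * pr (S \ A) (l A (restr A φ)) φ)) =
      (s * a A (emb A ψA)) * Su (MM J N S) (S \ A) (g + fb N (emb A ψA))
        (fun ψ => Frest (S \ A) (bb J A f (emb A ψA)) ψ *
          pr (S \ A) (l A (emb A ψA)) (emb (S \ A) ψ)) := by
    unfold SuR
    simp only [h1, h2]
    rw [← Su_const_mul']
    congr 1
    funext ψ
    ring
  rw [h3, SuR_one]
  have h4 := Su_tilt_mean hM.form (hM.pdO A) (l A (emb A ψA)) (g + fb N (emb A ψA))
    (pd_rest hM f0 (emb A ψA)) (fun ψ => Frest_pos ψ)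
  set X := Su (MM J N S) (S \ A) (g + fb N (emb A ψA))
        (fun ψ => Frest (S \ A) (bb J A f (emb A ψA)) ψ *
          pr (S \ A) (l A (emb A ψA)) (emb (S \ A) ψ)) with hX
  have h5 : s * a A (emb A ψA) * X ≤ a A (emb A ψA) * |X| := by
    have h6 : s * a A (emb A ψA) * X ≤ |s * a A (emb A ψA) * X| := le_abs_self _
    rw [abs_mul, abs_mul, hs, one_mul, abs_of_nonneg (ha A (emb A ψA))] at h6
    exact h6
  have h7 := mul_le_mul_of_nonneg_left h4 (ha A (emb A ψA))
  refine h5.trans (h7.trans (le_of_eq ?_))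
  ring

/-- CONDITIONAL EXPECTATION BOUND (7.2 + 1.7 (ii)): `a ≥ 0` and the charge `l` may depend on the
explored part. -/
theorem expl_mean (hM : Mod J N S) (hR : R ⊆ S) (f0 : ∀ x ∈ S, 0 ≤ f x)
    (a : Finset W → (W → ℝ) → ℝ) (ha : ∀ A φ, 0 ≤ a A φ)
    (l : Finset W → (W → ℝ) → W → ℝ)
    (hadm : ∀ A, A ⊆ S → Adm S (fun φ => a A (restr A φ)))
    (hadl : ∀ A, A ⊆ S → ∀ x, Adm S (fun φ => l A (restr A φ) x)) :
    |EtA J (MM J N S) S R f (f + g) (fun A φ => a A (restr A φ) * pr (S \ A) (l A (restr A φ)) φ)| ≤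
      EtA J (MM J N S) S R f (f + g) (fun A φ => a A (restr A φ) *
        (2 * Real.sqrt (nsq (MM J N S) (S \ A) (g + fb N (restr A φ))) *
          Real.sqrt (nsq (MM J N S) (S \ A) (l A (restr A φ))))) := by
  have h1 := SuA_mean (g := g) hM hR f0 a ha l hadm hadl 1 (by norm_num)
  have h2 := SuA_mean (g := g) hM hR f0 a ha l hadm hadl (-1) (by norm_num)
  have h3 : SuA J (MM J N S) S R f (f + g)
      (fun A φ => (-1 : ℝ) * (a A (restr A φ) * pr (S \ A) (l A (restr A φ)) φ)) =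
      -SuA J (MM J N S) S R f (f + g)
        (fun A φ => a A (restr A φ) * pr (S \ A) (l A (restr A φ)) φ) := by
    have h4 := Su_const_mul' (MM J N S) S (f + g) (-1 : ℝ)
      (fun ψ => ∑ A ∈ S.powerset, PA J S R f (emb S ψ) A *
        (a A (restr A (emb S ψ)) * pr (S \ A) (l A (restr A (emb S ψ))) (emb S ψ)))
    rw [neg_one_mul] at h4
    unfold SuA
    rw [← h4]
    congr 1
    funext ψ
    rw [Finset.mul_sum]
    apply Finset.sum_congr rfl
    intro A _
    ring
  simp only [one_mul] at h1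
  rw [h3] at h2
  have hpos := SuM_one_pos hM (f + g)
  unfold EtA
  rw [abs_le]
  constructor
  · rw [neg_le, ← neg_div]
    exact div_le_div_of_nonneg_right h2 hpos.le
  · exact div_le_div_of_nonneg_right h1 hpos.le

end Pool.Agent.LR
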