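import Pool.Agent.LR.B6.PAb

/-!
# LR-B6 module Sign: signs of clusters, `qpos`, `qgh`
-/

set_option autoImplicit false
set_option linter.unusedSectionVars false

noncomputable section

open scoped BigOperators

namespace Pool.Agent.LR

variable {W : Type*} [DecidableEq W]
variable {J : W → W → ℝ} {S R T A D : Finset W} {f φ φ' : W → ℝ} {ω : Finset (W × W)}

/-- Along open edges the sign is constant. -/
theorem pos_of_conn (hω : ∀ e ∈ ω, pe J φ e ≠ 0) {x y : W} (h : conn ω x y) (hx : 0 < φ x) :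
    0 < φ y := by
  induction h with
  | refl => exact hx
  | @tail b c _ hbc ih =>
    rcases hbc with h1 | h1
    · have h2 := pos_of_pe_ne (hω _ h1)
      exact (mul_pos_iff_of_pos_left ih).1 h2
    · have h2 := pos_of_pe_ne (hω _ h1)
      simp only at h2
      exact (mul_pos_iff_of_pos_right ih).1 h2

/-- positive edges -/
def Epos (S : Finset W) (φ : W → ℝ) : Finset (W × W) := by
  classical
  exact (S ×ˢ S).filter (fun e => 0 < φ e.1 ∧ 0 < φ e.2)

theorem mem_Epos {e : W × W} : e ∈ Epos S φ ↔ e ∈ S ×ˢ S ∧ 0 < φ e.1 ∧ 0 < φ e.2 := by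
  classical
  unfold Epos
  exact Finset.mem_filter

theorem Epos_subset : Epos S φ ⊆ S ×ˢ S := fun _ he => (mem_Epos.1 he).1

theorem conn_mono {ω ω' : Finset (W × W)} (h : ω ⊆ ω') {x y : W} (hc : conn ω x y) :
    conn ω' x y := by
  induction hc with
  | refl => exact Relation.ReflTransGen.refl
  | tail _ hbc ih =>
    rcases hbc with h1 | h1
    · exact ih.tail (Or.inl (h h1))
    · exact ih.tail (Or.inr (h h1))

/-- From a positive site one can use positive edges only. -/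
theorem conn_Epos (hωS : ω ⊆ S ×ˢ S) (hω : ∀ e ∈ ω, pe J φ e ≠ 0) {x y : W} (hx : 0 < φ x) :
    conn ω x y ↔ conn (ω ∩ Epos S φ) x y := by
  constructor
  · intro h
    have key : ∀ z, conn ω x z → 0 < φ z ∧ conn (ω ∩ Epos S φ) x z := by
      intro z hz
      induction hz with
      | refl => exact ⟨hx, Relation.ReflTransGen.refl⟩
      | @tail b c _ hbc ih =>
        obtain ⟨hb, hcb⟩ := ih
        have hc : 0 < φ c := by
          rcases hbc with h1 | h1
          · have h2 := pos_of_pe_ne (hω _ h1)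
            exact (mul_pos_iff_of_pos_left hb).1 h2
          · have h2 := pos_of_pe_ne (hω _ h1)
            simp only at h2
            exact (mul_pos_iff_of_pos_right hb).1 h2
        refine ⟨hc, ?_⟩
        rcases hbc with h1 | h1
        · exact hcb.tail (Or.inl (Finset.mem_inter.2 ⟨h1, mem_Epos.2 ⟨hωS h1, hb, hc⟩⟩))
        · exact hcb.tail (Or.inr (Finset.mem_inter.2 ⟨h1, mem_Epos.2 ⟨hωS h1, hc, hb⟩⟩))
    exact (key y h).2
  · exact conn_mono Finset.inter_subset_left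

/-- Functions of the positive edges have the same expectation under `pe` and `pp`. -/
theorem EB_Epos (Φ : Finset (W × W) → ℝ) :
    EB (S ×ˢ S) (pe J φ) (fun ω => Φ (ω ∩ Epos S φ)) = EB (S ×ˢ S) (pp J φ) Φ := by
  rw [EB_marg Epos_subset]
  have h1 : EB (Epos S φ) (pe J φ) Φ = EB (Epos S φ) (pp J φ) Φ := by
    apply EB_congr_p
    intro e he
    obtain ⟨_, h2, h3⟩ := mem_Epos.1 he
    exact pe_eq_pp h2 h3
  rw [h1, ← EB_marg (E := S ×ˢ S) Epos_subset]
  apply EB_congr_as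
  intro ω hω h
  have : ω ∩ Epos S φ = ω := by
    rw [Finset.inter_eq_left]
    intro e he
    obtain ⟨h2, h3⟩ := pos_of_pp_ne (h e he)
    exact mem_Epos.2 ⟨hω he, h2, h3⟩
  rw [this]

/-- In exploration (ii) the field is positive on the explored set. -/
theorem PA_pos (_J0 : ∀ x y, 0 ≤ J x y) (_f0 : ∀ x ∈ S, 0 ≤ f x) (h : PA J S ∅ f φ A ≠ 0) :
    ∀ x ∈ A, 0 < φ x := by
  intro x hx
  by_contra hneg
  apply h
  unfold PA
  refine (EB_congr_as ?_).trans (EB_const (S ×ˢ S) (pe J φ) 0)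
  intro ω hω hpe
  refine (EB_congr_as ?_).trans (EB_const S (pg f φ) 0)
  intro D hD hpg
  rw [if_neg]
  intro hreach
  rw [← hreach] at hx
  obtain ⟨_, r, hr, hc⟩ := mem_reach.1 hx
  rw [Finset.empty_union] at hr
  exact hneg (pos_of_conn hpe hc (pos_of_pg_ne (hpg r hr)))

theorem pg_zero (φ : W → ℝ) (x : W) : pg (0 : W → ℝ) φ x = 0 := by
  unfold pg
  simp

/-- exploration (i) without ghosts -/
theorem EB_pg_zero (Φ : Finset W → ℝ) : EB S (pg (0 : W → ℝ) φ) Φ = Φ ∅ := by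
  refine (EB_congr_as ?_).trans (EB_const S (pg (0 : W → ℝ) φ) (Φ ∅))
  intro D _ h
  have : D = ∅ := by
    rw [Finset.eq_empty_iff_forall_notMem]
    intro x hx
    exact h x hx (pg_zero φ x)
  rw [this]

open Classical in
/-- expectations of functions of the explored set -/
theorem sum_PA_mul (Ψ : Finset W → ℝ) :
    ∑ A ∈ S.powerset, PA J S R f φ A * Ψ A =
      EB (S ×ˢ S) (pe J φ) (fun ω => EB S (pg f φ) (fun D => Ψ (reach S ω (R ∪ D)))) := by
  have h1 : ∀ A ∈ S.powerset, PA J S R f φ A * Ψ A = EB (S ×ˢ S) (pe J φ) (fun ω =>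
      EB S (pg f φ) (fun D => (if reach S ω (R ∪ D) = A then 1 else 0) * Ψ A)) := by
    intro A _
    unfold PA
    rw [← EB_mul_const]
    apply EB_congr
    intro ω _
    rw [← EB_mul_const]
  rw [Finset.sum_congr rfl h1, ← EB_sum]
  apply EB_congr
  intro ω _
  rw [← EB_sum]
  apply EB_congr
  intro D _
  rw [Finset.sum_eq_single (reach S ω (R ∪ D))]
  · rw [if_pos rfl, one_mul]
  · intro B _ hB
    rw [if_neg (fun h => hB h.symm), zero_mul]
  · intro h
    exact absurd (Finset.mem_powerset.2 reach_subset) h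

open Classical in
/-- `{A meets R}` in exploration (ii). -/
theorem hit_eq_qgh (_J0 : ∀ x y, 0 ≤ J x y) (_f0 : ∀ x ∈ S, 0 ≤ f x) (hR : R ⊆ S) :
    ∑ A ∈ S.powerset, PA J S ∅ f φ A * (if (A ∩ R).Nonempty then 1 else 0) = qgh J S R f φ := by
  rw [sum_PA_mul]
  unfold qgh
  rw [EB_comm, EB_comm (S ×ˢ S) (pp J φ)]
  apply EB_congr_as
  intro D hD hpg
  rw [← EB_Epos]
  apply EB_congr_as
  intro ω hω hpe
  have : (reach S ω (∅ ∪ D) ∩ R).Nonempty ↔ ∃ y ∈ D, ∃ x ∈ R, conn (ω ∩ Epos S φ) y x := by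
    rw [Finset.empty_union]
    constructor
    · rintro ⟨x, hx⟩
      obtain ⟨h1, h2⟩ := Finset.mem_inter.1 hx
      obtain ⟨_, r, hr, hc⟩ := mem_reach.1 h1
      exact ⟨r, hr, x, h2, (conn_Epos hω hpe (pos_of_pg_ne (hpg r hr))).1 hc⟩
    · rintro ⟨r, hr, x, hx, hc⟩
      exact ⟨x, Finset.mem_inter.2 ⟨mem_reach.2 ⟨hR hx, r, hr,
        (conn_Epos hω hpe (pos_of_pg_ne (hpg r hr))).2 hc⟩, hx⟩⟩
  by_cases h : (reach S ω (∅ ∪ D) ∩ R).Nonempty
  · rw [if_pos h, if_pos (this.1 h)]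
  · rw [if_neg h, if_neg (fun h' => h (this.2 h'))]

open Classical in
theorem qpos_le (J0 : ∀ x y, 0 ≤ J x y) (_hR : R ⊆ S) (hT : T ⊆ S) :
    qpos J S R T φ ≤ ∑ A ∈ S.powerset, PA J S R 0 φ A * (if (A ∩ T).Nonempty then 1 else 0) := by
  rw [sum_PA_mul]
  have h1 : EB (S ×ˢ S) (pe J φ) (fun ω => EB S (pg (0 : W → ℝ) φ)
      (fun D => if (reach S ω (R ∪ D) ∩ T).Nonempty then (1 : ℝ) else 0)) =
      EB (S ×ˢ S) (pe J φ) (fun ω => if ∃ y ∈ R, ∃ x ∈ T, conn ω y x then 1 else 0) := by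
    apply EB_congr
    intro ω _
    rw [EB_pg_zero, Finset.union_empty]
    have : (reach S ω R ∩ T).Nonempty ↔ ∃ y ∈ R, ∃ x ∈ T, conn ω y x := by
      constructor
      · rintro ⟨x, hx⟩
        obtain ⟨h1, h2⟩ := Finset.mem_inter.1 hx
        obtain ⟨_, r, hr, hc⟩ := mem_reach.1 h1
        exact ⟨r, hr, x, h2, hc⟩
      · rintro ⟨r, hr, x, hx, hc⟩
        exact ⟨x, Finset.mem_inter.2 ⟨mem_reach.2 ⟨hT hx, r, hr, hc⟩, hx⟩⟩
    by_cases h : (reach S ω R ∩ T).Nonempty
    · rw [if_pos h, if_pos (this.1 h)]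
    · rw [if_neg h, if_neg (fun h' => h (this.2 h'))]
  rw [h1]
  unfold qpos
  apply EB_mono_p
  · exact fun e _ => (pp_mem J0 φ e).1
  · exact fun e _ => pp_le_pe J0 e
  · exact fun e _ => (pe_mem J0 φ e).2
  · intro ω ω' h _
    by_cases h2 : ∃ y ∈ R, ∃ x ∈ T, conn ω y x
    · obtain ⟨y, hy, x, hx, hc⟩ := h2
      rw [if_pos ⟨y, hy, x, hx, hc⟩, if_pos ⟨y, hy, x, hx, conn_mono h hc⟩]
    · rw [if_neg h2]
      split_ifs <;> norm_num

theorem neg_neg_edge : pp J (-φ) = fun e => 1 - Real.exp (-(J e.1 e.2 * (max 0 (-φ e.1) * max 0 (-φ e.2)))) := by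
  funext e
  rfl

theorem pe_neg : pe J (-φ) = pe J φ := by
  funext e
  unfold pe
  simp

open Classical in
/-- `{A meets T}` in exploration (i). -/
theorem hit_le (J0 : ∀ x y, 0 ≤ J x y) (_hR : R ⊆ S) (_hT : T ⊆ S) (hd : Disjoint R T) :
    ∑ A ∈ S.powerset, PA J S R 0 φ A * (if (A ∩ T).Nonempty then 1 else 0) ≤
      qpos J S R T φ + qpos J S R T (-φ) := by
  rw [sum_PA_mul]
  unfold qpos
  rw [← EB_Epos (φ := φ), ← EB_Epos (φ := -φ), pe_neg, ← EB_add]
  apply EB_mono_as (fun e _ => pe_mem J0 φ e)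
  intro ω hω hpe
  rw [EB_pg_zero, Finset.union_empty]
  by_cases h : (reach S ω R ∩ T).Nonempty
  · rw [if_pos h]
    obtain ⟨x, hx⟩ := h
    obtain ⟨h1, h2⟩ := Finset.mem_inter.1 hx
    obtain ⟨_, r, hr, hc⟩ := mem_reach.1 h1
    have hne : φ r ≠ 0 := by
      intro h0
      -- the path has a first edge
      rcases Relation.ReflTransGen.cases_head hc with h3 | ⟨c, h3, _⟩
      · subst h3
        exact Finset.disjoint_left.1 hd hr h2
      · rcases h3 with h4 | h4
        · have := pos_of_pe_ne (hpe _ h4)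
          simp only [h0, zero_mul, lt_irrefl] at this
        · have := pos_of_pe_ne (hpe _ h4)
          simp only [h0, mul_zero, lt_irrefl] at this
    rcases lt_or_gt_of_ne hne with h3 | h3
    · have h4 : 0 < (-φ) r := by simp only [Pi.neg_apply]; linarith
      have hpe' : ∀ e ∈ ω, pe J (-φ) e ≠ 0 := by rw [pe_neg]; exact hpe
      have h5 := (conn_Epos hω hpe' h4).1 hc
      have h6 : ∃ y ∈ R, ∃ x ∈ T, conn (ω ∩ Epos S (-φ)) y x := ⟨r, hr, x, h2, h5⟩
      rw [if_pos h6]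
      split_ifs <;> norm_num
    · have h5 := (conn_Epos hω hpe h3).1 hc
      have h6 : ∃ y ∈ R, ∃ x ∈ T, conn (ω ∩ Epos S φ) y x := ⟨r, hr, x, h2, h5⟩
      rw [if_pos h6]
      split_ifs <;> norm_num
  · rw [if_neg h]
    split_ifs <;> norm_num

open Classical in
/-- 7.9 (3). -/
theorem big_le_qgh (J0 : ∀ x y, 0 ≤ J x y) (f0 : ∀ x ∈ S, 0 ≤ f x) (_hR : R ⊆ S) :
    (1 - Real.exp (-2)) *
      ∑ A ∈ S.powerset, PA J S R 0 φ A * (if 1 < pr A f φ then 1 else 0) ≤ qgh J S R f φ := by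
  rw [sum_PA_mul, ← EB_const_mul]
  have h1 : qgh J S R f φ = EB (S ×ˢ S) (pe J φ) (fun ω => EB S (pg f φ)
      (fun D => if (D ∩ reach S ω R).Nonempty then (1 : ℝ) else 0)) := by
    unfold qgh
    rw [EB_comm, EB_comm (S ×ˢ S) (pe J φ)]
    apply EB_congr_as
    intro D hD hpg
    rw [← EB_Epos]
    apply EB_congr_as
    intro ω hω hpe
    have : (∃ y ∈ D, ∃ x ∈ R, conn (ω ∩ Epos S φ) y x) ↔ (D ∩ reach S ω R).Nonempty := by
      constructor
      · rintro ⟨r, hr, x, hx, hc⟩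
        exact ⟨r, Finset.mem_inter.2 ⟨hr, mem_reach.2 ⟨hD hr, x, hx,
          conn_symm ((conn_Epos hω hpe (pos_of_pg_ne (hpg r hr))).2 hc)⟩⟩⟩
      · rintro ⟨r, hr⟩
        obtain ⟨h1, h2⟩ := Finset.mem_inter.1 hr
        obtain ⟨_, x, hx, hc⟩ := mem_reach.1 h2
        exact ⟨r, h1, x, hx, (conn_Epos hω hpe (pos_of_pg_ne (hpg r h1))).1 (conn_symm hc)⟩
    by_cases h : (D ∩ reach S ω R).Nonempty
    · rw [if_pos h, if_pos (this.2 h)]
    · rw [if_neg h, if_neg (fun h' => h (this.1 h'))]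
  rw [h1]
  apply EB_mono (fun e _ => pe_mem J0 φ e)
  intro ω hω
  rw [EB_pg_zero, Finset.union_empty]
  have hB : reach S ω R ⊆ S := reach_subset
  have h2 : EB S (pg f φ) (fun D => if (D ∩ reach S ω R).Nonempty then (1 : ℝ) else 0)
      = 1 - ∏ x ∈ reach S ω R, (1 - pg f φ x) := by
    rw [← EB_miss hB (pg f φ)]
    have h3 : EB S (pg f φ) (fun D => (if (D ∩ reach S ω R).Nonempty then (1 : ℝ) else 0) +
        (if D ∩ reach S ω R = ∅ then 1 else 0)) = 1 := by
      refine (EB_congr ?_).trans (EB_one S (pg f φ))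
      intro D _
      by_cases h : D ∩ reach S ω R = ∅
      · rw [if_pos h, if_neg (by rw [h]; simp)]
        norm_num
      · rw [if_neg h, if_pos (Finset.nonempty_iff_ne_empty.2 h)]
        norm_num
    rw [EB_add] at h3
    linarith
  rw [h2]
  by_cases h : 1 < pr (reach S ω R) f φ
  · rw [if_pos h, mul_one]
    have h4 : ∏ x ∈ reach S ω R, (1 - pg f φ x) ≤ Real.exp (-2) := by
      have h5 : ∀ x, 1 - pg f φ x = Real.exp (-(2 * f x * max 0 (φ x))) := by
        intro x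
        unfold pg
        ring
      rw [Finset.prod_congr rfl (fun x _ => h5 x), ← Real.exp_sum, Real.exp_le_exp,
        Finset.sum_neg_distrib]
      have h6 : pr (reach S ω R) f φ ≤ ∑ x ∈ reach S ω R, f x * max 0 (φ x) := by
        unfold pr
        apply Finset.sum_le_sum
        intro x hx
        exact mul_le_mul_of_nonneg_left (le_max_right _ _) (f0 x (hB hx))
      have h7 : ∑ x ∈ reach S ω R, 2 * f x * max 0 (φ x) =
          2 * ∑ x ∈ reach S ω R, f x * max 0 (φ x) := by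
        rw [Finset.mul_sum]
        apply Finset.sum_congr rfl
        intro x _
        ring
      rw [h7]
      linarith
    linarith
  · rw [if_neg h, mul_zero]
    have h4 : ∏ x ∈ reach S ω R, (1 - pg f φ x) ≤ 1 := by
      apply Finset.prod_le_one
      · intro x hx
        have := (pg_mem f0 φ x (hB hx)).2
        linarith
      · intro x hx
        have := (pg_mem f0 φ x (hB hx)).1
        linarith
    linarith

theorem qpos_mem (J0 : ∀ x y, 0 ≤ J x y) : 0 ≤ qpos J S R T φ ∧ qpos J S R T φ ≤ 1 := by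
  unfold qpos
  constructor
  · apply EB_nonneg (fun e _ => pp_mem J0 φ e)
    intro ω _
    split_ifs <;> norm_num
  · refine le_trans (EB_mono (Ψ := fun _ => 1) (fun e _ => pp_mem J0 φ e) ?_)
      (EB_one (S ×ˢ S) (pp J φ)).le
    intro ω _
    split_ifs <;> norm_num

theorem qgh_mem (J0 : ∀ x y, 0 ≤ J x y) (f0 : ∀ x ∈ S, 0 ≤ f x) :
    0 ≤ qgh J S R f φ ∧ qgh J S R f φ ≤ 1 := by
  unfold qgh
  constructor
  · apply EB_nonneg (fun e _ => pp_mem J0 φ e)
    intro ω _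
    apply EB_nonneg (pg_mem f0 φ)
    intro D _
    split_ifs <;> norm_num
  · refine le_trans (EB_mono (Ψ := fun _ => 1) (fun e _ => pp_mem J0 φ e) ?_)
      (EB_one (S ×ˢ S) (pp J φ)).le
    intro ω _
    refine le_trans (EB_mono (Ψ := fun _ => 1) (pg_mem f0 φ) ?_)
      (EB_one S (pg f φ)).le
    intro D _
    split_ifs <;> norm_num

theorem pp_mono (J0 : ∀ x y, 0 ≤ J x y) (h : ∀ x ∈ S, φ x ≤ φ' x) :
    ∀ e ∈ S ×ˢ S, pp J φ e ≤ pp J φ' e := by
  intro e he
  obtain ⟨h1, h2⟩ := Finset.mem_product.1 he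
  unfold pp
  have h3 : max 0 (φ e.1) * max 0 (φ e.2) ≤ max 0 (φ' e.1) * max 0 (φ' e.2) :=
    mul_le_mul (max_le_max le_rfl (h _ h1)) (max_le_max le_rfl (h _ h2)) (le_max_left _ _)
      (le_max_left _ _)
  have h4 := mul_le_mul_of_nonneg_left h3 (J0 e.1 e.2)
  have h5 : Real.exp (-(J e.1 e.2 * (max 0 (φ' e.1) * max 0 (φ' e.2)))) ≤
      Real.exp (-(J e.1 e.2 * (max 0 (φ e.1) * max 0 (φ e.2)))) := by
    rw [Real.exp_le_exp]
    linarith
  linarith

theorem pg_mono (f0 : ∀ x ∈ S, 0 ≤ f x) (h : ∀ x ∈ S, φ x ≤ φ' x) :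
    ∀ x ∈ S, pg f φ x ≤ pg f φ' x := by
  intro x hx
  unfold pg
  have h3 : max 0 (φ x) ≤ max 0 (φ' x) := max_le_max le_rfl (h _ hx)
  have h4 := mul_le_mul_of_nonneg_left h3 (mul_nonneg (by norm_num : (0 : ℝ) ≤ 2) (f0 x hx))
  have h5 : Real.exp (-(2 * f x * max 0 (φ' x))) ≤ Real.exp (-(2 * f x * max 0 (φ x))) := by
    rw [Real.exp_le_exp]
    linarith
  linarith

theorem qpos_mono (J0 : ∀ x y, 0 ≤ J x y) (h : ∀ x ∈ S, φ x ≤ φ' x) :
    qpos J S R T φ ≤ qpos J S R T φ' := by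
  classical
  unfold qpos
  apply EB_mono_p
  · exact fun e _ => (pp_mem J0 φ e).1
  · exact pp_mono J0 h
  · exact fun e _ => (pp_mem J0 φ' e).2
  · intro ω ω' h _
    by_cases h2 : ∃ y ∈ R, ∃ x ∈ T, conn ω y x
    · obtain ⟨y, hy, x, hx, hc⟩ := h2
      rw [if_pos ⟨y, hy, x, hx, hc⟩, if_pos ⟨y, hy, x, hx, conn_mono h hc⟩]
    · rw [if_neg h2]
      split_ifs <;> norm_num

theorem qgh_mono (J0 : ∀ x y, 0 ≤ J x y) (f0 : ∀ x ∈ S, 0 ≤ f x)
    (h : ∀ x ∈ S, φ x ≤ φ' x) : qgh J S R f φ ≤ qgh J S R f φ' := by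
  classical
  unfold qgh
  refine le_trans (b := EB (S ×ˢ S) (pp J φ') (fun ω => EB S (pg f φ)
    (fun D => if ∃ y ∈ D, ∃ x ∈ R, conn ω y x then (1 : ℝ) else 0))) ?_ ?_
  · apply EB_mono_p
    · exact fun e _ => (pp_mem J0 φ e).1
    · exact pp_mono J0 h
    · exact fun e _ => (pp_mem J0 φ' e).2
    · intro ω ω' h _
      apply EB_mono (pg_mem f0 φ)
      intro D _
      by_cases h2 : ∃ y ∈ D, ∃ x ∈ R, conn ω y x
      · obtain ⟨y, hy, x, hx, hc⟩ := h2
        rw [if_pos ⟨y, hy, x, hx, hc⟩, if_pos ⟨y, hy, x, hx, conn_mono h hc⟩]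
      · rw [if_neg h2]
        split_ifs <;> norm_num
  · apply EB_mono (fun e _ => pp_mem J0 φ' e)
    intro ω _
    apply EB_mono_p
    · exact fun x hx => (pg_mem f0 φ x hx).1
    · exact pg_mono f0 h
    · exact fun x hx => (pg_mem f0 φ' x hx).2
    · intro D D' hD _
      by_cases h2 : ∃ y ∈ D, ∃ x ∈ R, conn ω y x
      · obtain ⟨y, hy, x, hx, hc⟩ := h2
        rw [if_pos ⟨y, hy, x, hx, hc⟩, if_pos ⟨y, hD hy, x, hx, hc⟩]
      · rw [if_neg h2]
        split_ifs <;> norm_num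

open Classical in
/-- Probability that `A` is not connected by short chains to the seeds. -/
theorem sum_PA_not_Chn (J0 : ∀ x y, 0 ≤ J x y) (f0 : ∀ x ∈ S, 0 ≤ f x) (hR : R ⊆ S)
    (s : W → W → Prop) (hs : ∀ u v, s u v → s v u) :
    ∑ A ∈ S.powerset, PA J S R f φ A * (if Chn s (seeds S R f) A then 0 else 1) ≤
      ∑ e ∈ (S ×ˢ S).filter (fun e => ¬ s e.1 e.2), J e.1 e.2 * |φ e.1 * φ e.2| := by
  rw [sum_PA_mul]
  refine le_trans (b := EB (S ×ˢ S) (pe J φ)
    (fun ω => if ∃ e ∈ ω, ¬ s e.1 e.2 then 1 else 0)) ?_ ?_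
  · apply EB_mono_as (fun e _ => pe_mem J0 φ e)
    intro ω hω hpe
    by_cases h : ∃ e ∈ ω, ¬ s e.1 e.2
    · rw [if_pos h]
      refine le_trans (EB_mono (Ψ := fun _ => 1) (pg_mem f0 φ) ?_) (EB_one S (pg f φ)).le
      intro D _
      split_ifs <;> norm_num
    · rw [if_neg h]
      have h' : ∀ e ∈ ω, s e.1 e.2 := by
        intro e he
        by_contra h2
        exact h ⟨e, he, h2⟩
      refine ((EB_congr_as ?_).trans (EB_const S (pg f φ) 0)).le
      intro D hD hpg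
      rw [if_pos]
      intro x hx
      obtain ⟨_, r, hr, hc⟩ := mem_reach.1 hx
      have hrS : r ∈ S := by
        rcases Finset.mem_union.1 hr with h1 | h1
        · exact hR h1
        · exact hD h1
      have hrA : r ∈ reach S ω (R ∪ D) :=
        mem_reach.2 ⟨hrS, r, hr, Relation.ReflTransGen.refl⟩
      refine ⟨r, hrA, ?_, ?_⟩
      · unfold seeds
        rcases Finset.mem_union.1 hr with h1 | h1
        · exact Finset.mem_union_left _ h1
        · exact Finset.mem_union_right _ (Finset.mem_filter.2 ⟨hrS, f_ne_of_pg_ne (hpg r h1)⟩)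
      · have key : ∀ z, conn ω r z → z ∈ reach S ω (R ∪ D) ∧
            Relation.ReflTransGen (fun u v => u ∈ reach S ω (R ∪ D) ∧ v ∈ reach S ω (R ∪ D) ∧
              s u v) r z := by
          intro z hz
          induction hz with
          | refl => exact ⟨hrA, Relation.ReflTransGen.refl⟩
          | @tail b c hb hbc ih =>
            obtain ⟨h1, h2⟩ := ih
            have hcS : c ∈ S := by
              rcases hbc with h3 | h3
              · exact (Finset.mem_product.1 (hω h3)).2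
              · exact (Finset.mem_product.1 (hω h3)).1
            have hcA : c ∈ reach S ω (R ∪ D) := mem_reach.2 ⟨hcS, r, hr, hb.tail hbc⟩
            refine ⟨hcA, h2.tail ⟨h1, hcA, ?_⟩⟩
            rcases hbc with h3 | h3
            · exact h' _ h3
            · exact hs _ _ (h' _ h3)
        exact (key x hc).2
  · refine le_trans (le_of_eq ?_)
      ((EB_bound (S ×ˢ S) (fun e _ => pe_mem J0 φ e) (fun e => ¬ s e.1 e.2)).trans ?_)
    · apply EB_congr
      intro ω _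
      by_cases h : ∃ e ∈ ω, ¬ s e.1 e.2
      · rw [if_pos h, if_pos h]
      · rw [if_neg h, if_neg h]
    · have h2 : (S ×ˢ S).filter (fun e => ¬ s e.1 e.2) ⊆ S ×ˢ S := Finset.filter_subset _ _
      refine le_trans (Finset.sum_le_sum (fun e _ => pe_le (φ := φ) J0 e)) (le_of_eq ?_)
      apply Finset.sum_congr _ (fun _ _ => rfl)
      ext e
      simp only [Finset.mem_filter]

end Pool.Agent.LR
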