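import Pool.Agent.LR.B6.Point

/-!
# LR-B6 module Sum: disintegration over the explored part, calculus of `EtA`
-/

set_option autoImplicit false
set_option linter.unusedSectionVars false

noncomputable section

open scoped BigOperators

namespace Pool.Agent.LR



variable {W : Type*} [DecidableEq W]
variable {J : W → W → ℝ} {N : BF W} {S R T A : Finset W} {f g h l φ : W → ℝ}

/-- summability of all integrands -/
theorem summable_tilt (hM : Mod J N S) (h : W → ℝ) {F : (S → ℤ) → ℝ} (hF : Tame F) :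
    Summable (fun ψ : S → ℤ => wt (MM J N S) S 0 ψ * Real.exp (pr S h (emb S ψ)) * F ψ) := by
  have h1 := summable_wt_mul hM.form hM.pd 0 ((tame_exp_pr (O := S) h).mul hF)
  refine h1.congr (fun ψ => ?_)
  ring

theorem summable_tiltO (hM : Mod J N S) (A : Finset W) (h : W → ℝ)
    {F : ((S \ A : Finset W) → ℤ) → ℝ} (hF : Tame F) :
    Summable (fun ψ : (S \ A : Finset W) → ℤ =>
      wt (MM J N S) (S \ A) 0 ψ * Real.exp (pr (S \ A) h (emb (S \ A) ψ)) * F ψ) := by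
  have h1 := summable_wt_mul hM.form (hM.pdO A) 0 ((tame_exp_pr (O := S \ A) h).mul hF)
  refine h1.congr (fun ψ => ?_)
  ring

theorem tame_PA (J0 : ∀ x y, 0 ≤ J x y) (f0 : ∀ x ∈ S, 0 ≤ f x) (hA : A ⊆ S) :
    Tame (O := S) (fun ψ => PA J S R f (emb S ψ) A) :=
  tame_bdd 1 (fun ψ => by
    rw [abs_of_nonneg (PA_nonneg J0 f0)]
    exact PA_le_one J0 f0 hA)

theorem tame_outer (hM : Mod J N S) (f0 : ∀ x ∈ S, 0 ≤ f x)
    {Ξ : Finset W → (W → ℝ) → ℝ} (hΞ : ∀ A, A ⊆ S → Adm S (Ξ A)) :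
    Tame (O := S) (fun ψ => ∑ A ∈ S.powerset, PA J S R f (emb S ψ) A * Ξ A (emb S ψ)) :=
  Tame.sum S.powerset (fun A hA => (tame_PA hM.J0 f0 (Finset.mem_powerset.1 hA)).mul
    (hΞ A (Finset.mem_powerset.1 hA)).tame)

theorem Su_add' (hM : Mod J N S) (h : W → ℝ) {F G : (S → ℤ) → ℝ} (hF : Tame F) (hG : Tame G) :
    Su (MM J N S) S h (fun ψ => F ψ + G ψ) = Su (MM J N S) S h F + Su (MM J N S) S h G := by
  unfold Su
  rw [← (summable_tilt hM h hF).tsum_add (summable_tilt hM h hG)]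
  apply tsum_congr
  intro ψ
  ring

theorem Su_const_mul' (M : BF W) (O : Finset W) (h : W → ℝ) (a : ℝ) (F : (O → ℤ) → ℝ) :
    Su M O h (fun ψ => a * F ψ) = a * Su M O h F := by
  unfold Su
  rw [← tsum_mul_left]
  apply tsum_congr
  intro ψ
  ring

theorem Su_sum' (hM : Mod J N S) (h : W → ℝ) {τ : Type*} (t : Finset τ) {F : τ → (S → ℤ) → ℝ}
    (hF : ∀ i ∈ t, Tame (F i)) :
    Su (MM J N S) S h (fun ψ => ∑ i ∈ t, F i ψ) = ∑ i ∈ t, Su (MM J N S) S h (F i) := by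
  classical
  induction t using Finset.induction_on with
  | empty => simp [Su]
  | insert i t hi ih =>
    have h1 : (fun ψ => ∑ j ∈ insert i t, F j ψ) = (fun ψ => F i ψ + ∑ j ∈ t, F j ψ) := by
      funext ψ
      rw [Finset.sum_insert hi]
    rw [h1, Su_add' hM h (hF i (Finset.mem_insert_self i t))
      (Tame.sum t (fun j hj => hF j (Finset.mem_insert_of_mem hj))), Finset.sum_insert hi,
      ih (fun j hj => hF j (Finset.mem_insert_of_mem hj))]

theorem Su_mono' (hM : Mod J N S) (h : W → ℝ) {F G : (S → ℤ) → ℝ} (hF : Tame F) (hG : Tame G)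
    (hle : ∀ ψ, F ψ ≤ G ψ) : Su (MM J N S) S h F ≤ Su (MM J N S) S h G := by
  unfold Su
  apply (summable_tilt hM h hF).tsum_le_tsum _ (summable_tilt hM h hG)
  intro ψ
  exact mul_le_mul_of_nonneg_left (hle ψ) (mul_nonneg (Real.exp_pos _).le (Real.exp_pos _).le)

theorem SuM_one_pos (hM : Mod J N S) (h : W → ℝ) : 0 < Su (MM J N S) S h (fun _ => 1) := by
  have h1 := summable_tilt hM h (tame_const (O := S) 1)
  have h2 : ∀ ψ : S → ℤ, 0 ≤ wt (MM J N S) S 0 ψ * Real.exp (pr S h (emb S ψ)) * 1 := by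
    intro ψ
    rw [mul_one]
    exact mul_nonneg (Real.exp_pos _).le (Real.exp_pos _).le
  refine lt_of_lt_of_le ?_ (h1.le_tsum (0 : S → ℤ) (fun ψ _ => h2 ψ))
  rw [mul_one]
  exact mul_pos (Real.exp_pos _) (Real.exp_pos _)

/-- disintegration for one set `A` -/
theorem Su_disint (hM : Mod J N S) (hA : A ⊆ S) (hR : R ⊆ A) (f0 : ∀ x ∈ S, 0 ≤ f x)
    {F : (W → ℝ) → ℝ} (hF : Adm S F) :
    HasSum (fun ψA : A → ℤ => KA J (MM J N S) R f A (emb A ψA) * Real.exp (pr A g (emb A ψA)) *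
        SuR J (MM J N S) N S f g A (emb A ψA) F)
      (Su (MM J N S) S (f + g) (fun ψ => PA J S R f (emb S ψ) A * F (emb S ψ))) := by
  have hT : Tame (O := S) (fun ψ => PA J S R f (emb S ψ) A * F (emb S ψ)) :=
    (tame_PA hM.J0 f0 hA).mul hF.tame
  have h1 := summable_tilt hM (f + g) hT
  have h2 : Summable (fun p : (A → ℤ) × ((S \ A : Finset W) → ℤ) =>
      wt (MM J N S) S 0 (glueEquiv hA p) * Real.exp (pr S (f + g) (emb S (glueEquiv hA p))) *
        (PA J S R f (emb S (glueEquiv hA p)) A * F (emb S (glueEquiv hA p)))) :=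
    (glueEquiv hA).summable_iff.2 h1
  have h3 : ∀ p : (A → ℤ) × ((S \ A : Finset W) → ℤ),
      wt (MM J N S) S 0 (glueEquiv hA p) * Real.exp (pr S (f + g) (emb S (glueEquiv hA p))) *
        (PA J S R f (emb S (glueEquiv hA p)) A * F (emb S (glueEquiv hA p))) =
      KA J (MM J N S) R f A (emb A p.1) * Real.exp (pr A g (emb A p.1)) *
        (wt (MM J N S) (S \ A) 0 p.2 *
          Real.exp (pr (S \ A) (g + fb N (emb A p.1)) (emb (S \ A) p.2)) *
          (Frest (S \ A) (bb J A f (emb A p.1)) p.2 * F (emb A p.1 + emb (S \ A) p.2))) := by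
    intro p
    have e1 := point (g := g) (f := f) hM hA hR p.1 p.2
    have e2 : glueEquiv hA p = glue S A p.1 p.2 := rfl
    rw [e2]
    have e3 := emb_glue hA p.1 p.2
    rw [e3] at e1 ⊢
    linear_combination (F (emb A p.1 + emb (S \ A) p.2)) * e1
  have h4 := h2.congr (fun p => h3 p)
  have h5 : Su (MM J N S) S (f + g) (fun ψ => PA J S R f (emb S ψ) A * F (emb S ψ)) =
      ∑' ψA : A → ℤ, KA J (MM J N S) R f A (emb A ψA) * Real.exp (pr A g (emb A ψA)) *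
        SuR J (MM J N S) N S f g A (emb A ψA) F := by
    unfold Su
    rw [← (glueEquiv hA).tsum_eq, tsum_congr h3, h4.tsum_prod]
    apply tsum_congr
    intro ψA
    unfold SuR Su
    rw [← tsum_mul_left]
  rw [h5]
  apply Summable.hasSum
  refine (h4.prod).congr (fun ψA => ?_)
  unfold SuR Su
  rw [← tsum_mul_left]

/-- Master identity. -/
theorem SuA_disint (hM : Mod J N S) (hR : R ⊆ S) (f0 : ∀ x ∈ S, 0 ≤ f x)
    {Ξ : Finset W → (W → ℝ) → ℝ} (hΞ : ∀ A, A ⊆ S → Adm S (Ξ A)) :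
    SuA J (MM J N S) S R f (f + g) Ξ =
      ∑ A ∈ S.powerset.filter (fun A => R ⊆ A), ∑' ψA : A → ℤ,
        KA J (MM J N S) R f A (emb A ψA) * Real.exp (pr A g (emb A ψA)) *
          SuR J (MM J N S) N S f g A (emb A ψA) (Ξ A) := by
  unfold SuA
  rw [Su_sum' hM (f + g) S.powerset (fun A hA => (tame_PA hM.J0 f0 (Finset.mem_powerset.1 hA)).mul
    (hΞ A (Finset.mem_powerset.1 hA)).tame), Finset.sum_filter]
  apply Finset.sum_congr rfl
  intro A hA
  split_ifs with h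
  · exact (Su_disint hM (Finset.mem_powerset.1 hA) h f0 (hΞ A (Finset.mem_powerset.1 hA))).tsum_eq.symm
  · have h1 : (fun ψ : S → ℤ => PA J S R f (emb S ψ) A * Ξ A (emb S ψ)) = fun _ => 0 := by
      funext ψ
      rw [PA_eq_zero hR h, zero_mul]
    rw [h1]
    simp [Su]

/-- Comparison principle: compare the rest sums. -/
theorem SuA_comp (hM : Mod J N S) (hR : R ⊆ S) (f0 : ∀ x ∈ S, 0 ≤ f x) {g₁ g₂ : W → ℝ}
    {Ξ Υ : Finset W → (W → ℝ) → ℝ} (hΞ : ∀ A, A ⊆ S → Adm S (Ξ A))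
    (hΥ : ∀ A, A ⊆ S → Adm S (Υ A))
    (hle : ∀ A, A ⊆ S → R ⊆ A → ∀ ψA : A → ℤ,
      Real.exp (pr A g₁ (emb A ψA)) * SuR J (MM J N S) N S f g₁ A (emb A ψA) (Ξ A) ≤
        Real.exp (pr A g₂ (emb A ψA)) * SuR J (MM J N S) N S f g₂ A (emb A ψA) (Υ A)) :
    SuA J (MM J N S) S R f (f + g₁) Ξ ≤ SuA J (MM J N S) S R f (f + g₂) Υ := by
  rw [SuA_disint hM hR f0 hΞ, SuA_disint hM hR f0 hΥ]
  apply Finset.sum_le_sum
  intro A hA
  obtain ⟨h1, h2⟩ := Finset.mem_filter.1 hA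
  have hAS := Finset.mem_powerset.1 h1
  apply (Su_disint hM hAS h2 f0 (hΞ A hAS)).summable.tsum_le_tsum _
    (Su_disint hM hAS h2 f0 (hΥ A hAS)).summable
  intro ψA
  have h3 : 0 ≤ KA J (MM J N S) R f A (emb A ψA) := by
    unfold KA
    exact mul_nonneg (mul_nonneg (kin_nonneg hM.J0 (fun x hx => f0 x (hAS hx)))
      (Real.exp_pos _).le) (Real.exp_pos _).le
  have h4 := mul_le_mul_of_nonneg_left (hle A hAS h2 ψA) h3
  linarith

/-! ## Calculus of `EtA` -/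

theorem EtA_one (hM : Mod J N S) : EtA J (MM J N S) S R f h (fun _ _ => 1) = 1 := by
  unfold EtA SuA
  have h1 : (fun ψ : S → ℤ => ∑ A ∈ S.powerset, PA J S R f (emb S ψ) A * 1) = fun _ => 1 := by
    funext ψ
    simp only [mul_one]
    exact sum_PA
  rw [h1]
  exact div_self (SuM_one_pos hM h).ne'

/-- functions of the field only -/
theorem EtA_field (F : (W → ℝ) → ℝ) :
    EtA J (MM J N S) S R f h (fun _ φ => F φ) = Et (MM J N S) S h (fun ψ => F (emb S ψ)) := by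
  unfold EtA SuA Et
  have h1 : (fun ψ : S → ℤ => ∑ A ∈ S.powerset, PA J S R f (emb S ψ) A * F (emb S ψ)) =
      fun ψ => F (emb S ψ) := by
    funext ψ
    rw [← Finset.sum_mul, sum_PA, one_mul]
  rw [h1]

theorem EtA_add (hM : Mod J N S) (f0 : ∀ x ∈ S, 0 ≤ f x) {Ξ Υ : Finset W → (W → ℝ) → ℝ}
    (hΞ : ∀ A, A ⊆ S → Adm S (Ξ A)) (hΥ : ∀ A, A ⊆ S → Adm S (Υ A)) :
    EtA J (MM J N S) S R f h (fun A φ => Ξ A φ + Υ A φ) =
      EtA J (MM J N S) S R f h Ξ + EtA J (MM J N S) S R f h Υ := by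
  unfold EtA SuA
  rw [← add_div, ← Su_add' hM h (tame_outer hM f0 hΞ) (tame_outer hM f0 hΥ)]
  congr 2
  funext ψ
  rw [← Finset.sum_add_distrib]
  apply Finset.sum_congr rfl
  intro A _
  ring

theorem EtA_const_mul (a : ℝ) (Ξ : Finset W → (W → ℝ) → ℝ) :
    EtA J (MM J N S) S R f h (fun A φ => a * Ξ A φ) = a * EtA J (MM J N S) S R f h Ξ := by
  unfold EtA SuA
  rw [← mul_div_assoc, ← Su_const_mul']
  congr 2
  funext ψ
  rw [Finset.mul_sum]
  apply Finset.sum_congr rfl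
  intro A _
  ring

/-- Monotonicity; in the comparison one may use everything that holds almost surely. -/
theorem EtA_mono (hM : Mod J N S) (f0 : ∀ x ∈ S, 0 ≤ f x) {Ξ Υ : Finset W → (W → ℝ) → ℝ}
    (hΞ : ∀ A, A ⊆ S → Adm S (Ξ A)) (hΥ : ∀ A, A ⊆ S → Adm S (Υ A))
    (hle : ∀ A, A ⊆ S → ∀ ψ : S → ℤ, PA J S R f (emb S ψ) A ≠ 0 → Ξ A (emb S ψ) ≤ Υ A (emb S ψ)) :
    EtA J (MM J N S) S R f h Ξ ≤ EtA J (MM J N S) S R f h Υ := by
  unfold EtA
  apply div_le_div_of_nonneg_right _ (SuM_one_pos hM h).le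
  unfold SuA
  apply Su_mono' hM h (tame_outer hM f0 hΞ) (tame_outer hM f0 hΥ)
  intro ψ
  apply Finset.sum_le_sum
  intro A hA
  by_cases h0 : PA J S R f (emb S ψ) A = 0
  · rw [h0, zero_mul, zero_mul]
  · exact mul_le_mul_of_nonneg_left (hle A (Finset.mem_powerset.1 hA) ψ h0)
      (PA_nonneg hM.J0 f0)

theorem EtA_nonneg (hM : Mod J N S) (f0 : ∀ x ∈ S, 0 ≤ f x) {Ξ : Finset W → (W → ℝ) → ℝ}
    (hle : ∀ A, A ⊆ S → ∀ ψ : S → ℤ, PA J S R f (emb S ψ) A ≠ 0 → 0 ≤ Ξ A (emb S ψ)) :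
    0 ≤ EtA J (MM J N S) S R f h Ξ := by
  unfold EtA
  apply div_nonneg _ (SuM_one_pos hM h).le
  unfold SuA Su
  apply tsum_nonneg
  intro ψ
  apply mul_nonneg (mul_nonneg (Real.exp_pos _).le (Real.exp_pos _).le)
  apply Finset.sum_nonneg
  intro A hA
  by_cases h0 : PA J S R f (emb S ψ) A = 0
  · rw [h0, zero_mul]
  · exact mul_nonneg (PA_nonneg hM.J0 f0) (hle A (Finset.mem_powerset.1 hA) ψ h0)

end Pool.Agent.LR
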